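import Pool.Agent.Helper473.GH.FinA

set_option autoImplicit false

open scoped Manifold ContDiff Topology Distributions
open MeasureTheory TopologicalSpace Set

namespace Pool.Agent.Helper473.GH

noncomputable section

/-- The curve currents are non-negative on `φ ω`, `φ ≥ 0`. -/
lemma curve_nonneg (hPOS : S_POS) {U : Opens E} {c' : Current U 2} (hc : c' ∈ PCurve U)
    (φ : 𝓓(U, ℝ)) (h : ∀ x, 0 ≤ φ x) : 0 ≤ c' (fom φ) := by
  obtain ⟨S, _, _, _, _, _, u, hu, hI⟩ := hc
  have := hI (fom φ)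
  rw [fom_coe] at this
  exact (hPOS S U u hu φ φ.continuous h _ this).1

lemma curve_zero (hPOS : S_POS) (hGEO : S_GEO) {U : Opens E} {c' : Current U 2}
    (hc : c' ∈ PCurve U) (T : Set E) (φ : E → 𝓓(U, ℝ)) (h : ∀ p x, 0 ≤ φ p x)
    (hcov : ∀ x ∈ (U : Set E), x ∉ FS → ∃ p ∈ T, φ p x ≠ 0)
    (hz : ∀ p ∈ T, c' (fom (φ p)) = 0) (R : ℝ) (hR : Metric.ball (0 : E) R ⊆ (U : Set E))
    (ψ : 𝓓(U, ℝ)) (hψ : ∀ x, x ∉ Metric.ball (0 : E) R → ψ x = 0) : c' (fom ψ) = 0 := by
  obtain ⟨S, _, _, _, _, _, u, hu, hI⟩ := hc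
  have hFS : ∀ s, u s ∈ FS := by
    intro s
    by_contra hs
    obtain ⟨p, hp, hps⟩ := hcov (u s) (hu.mem s) hs
    have := hI (fom (φ p))
    rw [fom_coe] at this
    exact hps ((hPOS S U u hu (φ p) (φ p).continuous (h p) _ this).2 (hz p hp) s)
  have hball := hGEO S U u hu hFS R hR
  have := hI (fom ψ)
  rw [fom_coe] at this
  obtain ⟨e, A, h1, h2, h3, h4, h5, h6, h7⟩ := this
  have hd : ∀ k z, dens (e k) u (fun x => ψ x • om) z = 0 := by
    intro k z
    simp only [dens]
    rw [hψ _ (hball _)]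
    simp
  simp only [hd, integral_zero] at h7
  exact h7.unique hasSum_zero

theorem fin (hTA : S_TA) (hCONE : S_CONE) (hCYC : S_CYC) (hGEO : S_GEO) (hPOS : S_POS) :
    ∃ c : Current ⊤ 2, c ∈ CCurrent ∧ IsCycle c ∧
      ∃ x : E, ∀ U : Opens E, x ∈ U → ¬ IsSuperposition U c := by
  have n1 : ((1, 1) : ℝ × ℝ) ≠ 0 := by simp [Prod.ext_iff]
  have n2 : ((0, -1) : ℝ × ℝ) ≠ 0 := by simp [Prod.ext_iff]
  have n3 : ((-1, 0) : ℝ × ℝ) ≠ 0 := by simp [Prod.ext_iff]
  obtain ⟨T1, h1⟩ := hTA _ n1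
  obtain ⟨T2, h2⟩ := hTA _ n2
  obtain ⟨T3, h3⟩ := hTA _ n3
  have hT : ∀ α : Forms ⊤ 2, (T1 + T2 + T3) α = TV (1, 1) α + TV (0, -1) α + TV (-1, 0) α := by
    intro α
    rw [← h1, ← h2, ← h3]
    rfl
  refine ⟨T1 + T2 + T3, ?_, ?_, 0, ?_⟩
  · exact closedCone_add (closedCone_add (hCONE _ n1 _ h1) (hCONE _ n2 _ h2)) (hCONE _ n3 _ h3)
  · intro β
    rw [hT, hCYC _ n1, hCYC _ n2, hCYC _ n3]
    have hint : ∀ v : E, Integrable fun p : ℝ × ℝ => β ((⟨0, p.1⟩, ⟨0, p.2⟩) : E) ![v] := by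
      intro v
      have hg : Continuous fun p : ℝ × ℝ => ((⟨0, p.1⟩, ⟨0, p.2⟩) : E) := by
        have : (fun p : ℝ × ℝ => ((⟨0, p.1⟩, ⟨0, p.2⟩) : E)) =
            fun p => P (1, 1) (0, p.1, p.2) := by
          ext p <;> simp [P]
        rw [this]
        exact (P_cont _).comp (by fun_prop)
      apply Continuous.integrable_of_hasCompactSupport
      · have : Continuous fun x : E => β x ![v] := by
          have hb := β.continuous
          fun_prop
        exact this.comp hg
      · have hβ : HasCompactSupport fun x : E => β x ![v] := by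
          refine β.hasCompactSupport.mono ?_
          intro x hx hx0
          apply hx
          simp only at hx0 ⊢
          rw [hx0]
          simp
        refine hβ.comp_isClosedEmbedding (g := fun p : ℝ × ℝ => ((⟨0, p.1⟩, ⟨0, p.2⟩) : E)) ?_
        refine Topology.IsClosedEmbedding.of_continuous_injective_isClosedMap hg ?_ ?_
        · intro q q' hq
          simp only [Prod.mk.injEq, Complex.mk.injEq] at hq
          exact Prod.ext hq.1.2 hq.2.2
        · intro K hK
          have : (fun p : ℝ × ℝ => ((⟨0, p.1⟩, ⟨0, p.2⟩) : E)) '' K =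
              (fun p : E => (p.1.im, p.2.im)) ⁻¹' K ∩ {p : E | p.1.re = 0 ∧ p.2.re = 0} := by
            ext p
            constructor
            · rintro ⟨q, hq, rfl⟩
              simp [hq]
            · rintro ⟨k1, k2, k3⟩
              refine ⟨_, k1, ?_⟩
              refine Prod.ext (Complex.ext ?_ ?_) (Complex.ext ?_ ?_) <;> simp [k2, k3]
          rw [this]
          exact (hK.preimage (by fun_prop)).inter
            ((isClosed_eq (by fun_prop) (by fun_prop)).inter
              (isClosed_eq (by fun_prop) (by fun_prop)))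
    have hsum : ∀ p : ℝ × ℝ, β ((⟨0, p.1⟩, ⟨0, p.2⟩) : E) ![J (vec (1, 1))] =
        - β ((⟨0, p.1⟩, ⟨0, p.2⟩) : E) ![J (vec (0, -1))] -
          β ((⟨0, p.1⟩, ⟨0, p.2⟩) : E) ![J (vec (-1, 0))] := by
      intro p
      generalize β ((⟨0, p.1⟩, ⟨0, p.2⟩) : E) = b
      have key : ∀ v : E, ![v] = Function.update ![(0 : E)] 0 v := by
        intro v
        ext i : 1
        fin_cases i
        rfl
      have hb : ∀ v w : E, b ![v + w] = b ![v] + b ![w] := by
        intro v w
        rw [key, key v, key w]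
        exact b.map_update_add ![0] 0 v w
      have hbn : ∀ v : E, b ![-v] = - b ![v] := by
        intro v
        rw [key, key v]
        have := b.map_update_smul ![0] 0 (-1 : ℝ) v
        rw [neg_one_smul, neg_one_smul] at this
        exact this
      have : J (vec (1, 1)) = -(J (vec (0, -1))) + -(J (vec (-1, 0))) := by
        ext <;> simp [J, vec]
      rw [this, hb, hbn, hbn]
      ring
    simp_rw [hsum]
    have hs2 : ∀ v w : E, ∫ p : ℝ × ℝ, (- β ((⟨0, p.1⟩, ⟨0, p.2⟩) : E) ![v] -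
        β ((⟨0, p.1⟩, ⟨0, p.2⟩) : E) ![w]) =
        - (∫ p : ℝ × ℝ, β ((⟨0, p.1⟩, ⟨0, p.2⟩) : E) ![v]) -
          ∫ p : ℝ × ℝ, β ((⟨0, p.1⟩, ⟨0, p.2⟩) : E) ![w] := by
      intro v w
      have hn : Integrable fun p : ℝ × ℝ => - β ((⟨0, p.1⟩, ⟨0, p.2⟩) : E) ![v] := (hint v).neg
      rw [integral_sub hn (hint w), integral_neg]
    rw [hs2]
    ring
  · intro U hU hsup
    obtain ⟨m, ν, hν⟩ := hsup
    obtain ⟨R, hR0, hR⟩ := Metric.isOpen_iff.1 U.isOpen 0 hU
    have hFSc : IsClosed FS := by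
      have : FS = {p : E | p.1.re = p.2.re ∧ 0 ≤ p.1.re} ∪
          ({p : E | p.2.re = 0 ∧ p.1.re ≤ 0} ∪ {p : E | p.1.re = 0 ∧ p.2.re ≤ 0}) := by
        ext p; simp [FS]
      rw [this]
      have c1 : Continuous fun p : E => p.1.re := by fun_prop
      have c2 : Continuous fun p : E => p.2.re := by fun_prop
      refine IsClosed.union ?_ (IsClosed.union ?_ ?_)
      · exact (isClosed_eq c1 c2).inter (isClosed_le continuous_const c1)
      · exact (isClosed_eq c2 continuous_const).inter (isClosed_le c1 continuous_const)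
      · exact (isClosed_eq c1 continuous_const).inter (isClosed_le c2 continuous_const)
    -- bump functions off the faces
    have hbump : ∀ p : E, ∃ φ : 𝓓(U, ℝ), (∀ x, 0 ≤ φ x) ∧ (∀ x ∈ FS, φ x = 0) ∧
        (p ∈ (U : Set E) \ FS → 0 < φ p) := by
      intro p
      by_cases hp : p ∈ (U : Set E) \ FS
      · obtain ⟨r, hr, hb⟩ := Metric.isOpen_iff.1 (U.isOpen.sdiff hFSc) p hp
        obtain ⟨φ, k1, k2, k3⟩ := exists_bump U p (r / 2) (by linarith)
          ((Metric.closedBall_subset_ball (by linarith)).trans (hb.trans sdiff_subset))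
        refine ⟨φ, k1, ?_, fun _ => k2⟩
        intro x hx
        apply k3
        intro hx'
        exact (hb (Metric.ball_subset_ball (by linarith) hx')).2 hx
      · exact ⟨0, fun x => le_rfl, fun x _ => rfl, fun h => absurd h hp⟩
    choose φ hφ0 hφFS hφp using hbump
    obtain ⟨T, -, hTc, hTU⟩ := TopologicalSpace.isOpen_biUnion_countable univ
      (fun p => Function.support (φ p)) (fun p _ => (φ p).continuous.isOpen_support)
    have hcov : ∀ x ∈ (U : Set E), x ∉ FS → ∃ p ∈ T, φ p x ≠ 0 := by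
      intro x hx hxF
      have : x ∈ ⋃ p ∈ (univ : Set E), Function.support (φ p) := by
        simp only [mem_univ, iUnion_true, mem_iUnion]
        exact ⟨x, (hφp x ⟨hx, hxF⟩).ne'⟩
      rw [← hTU] at this
      simpa using this
    have hval : ∀ χ : 𝓓(U, ℝ), (T1 + T2 + T3) (TestFunction.monoCLM ℝ (fom χ)) =
        TV (1, 1) (fun x => χ x • om) + TV (0, -1) (fun x => χ x • om) +
          TV (-1, 0) (fun x => χ x • om) := by
      intro χ
      rw [hT, mono_fom]
    have hae : ∀ᵐ c' : PCurve U ∂ν, ∀ p ∈ T, (c' : Current U 2) (fom (φ p)) = 0 := by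
      rw [ae_ball_iff hTc]
      intro p hp
      obtain ⟨k1, k2⟩ := hν (fom (φ p))
      rw [hval] at k2
      have hz : ∀ a : ℝ × ℝ, (∀ q ∈ Ioi (0 : ℝ) ×ˢ (univ : Set (ℝ × ℝ)), P a q ∈ FS) →
          TV a (fun x => φ p x • om) = 0 := fun a ha =>
        TV_zero a _ fun q hq => hφFS p _ (ha q hq)
      rw [hz _ fun q hq => (P_mem_FS hq).1, hz _ fun q hq => (P_mem_FS hq).2.1,
        hz _ fun q hq => (P_mem_FS hq).2.2] at k2
      have k3 : ∫ c', (c' : Current U 2) (fom (φ p)) ∂ν = 0 := by rw [← k2]; ring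
      rw [integral_eq_zero_iff_of_nonneg (fun c' => curve_nonneg hPOS c'.2 _ (hφ0 p)) k1] at k3
      exact k3
    obtain ⟨ψ, l1, l2, l3⟩ := exists_bump U 0 (R / 2) (by linarith)
      ((Metric.closedBall_subset_ball (by linarith)).trans hR)
    have hψ : ∀ᵐ c' : PCurve U ∂ν, (c' : Current U 2) (fom ψ) = 0 := by
      filter_upwards [hae] with c' hc'
      exact curve_zero hPOS hGEO c'.2 T φ hφ0 hcov hc' R hR ψ
        fun x hx => l3 x fun hx' => hx (Metric.ball_subset_ball (by linarith) hx')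
    have m1 := (hν (fom ψ)).2
    rw [integral_congr_ae hψ, hval] at m1
    simp only [integral_zero] at m1
    have m2 := TV_pos ψ ψ.continuous ψ.hasCompactSupport l1 l2
    have m3 := TV_nonneg (0, -1) ψ l1
    have m4 := TV_nonneg (-1, 0) ψ l1
    linarith

end

end Pool.Agent.Helper473.GH
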