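import Pool.Agent.Helper473.GH.Stmts

set_option autoImplicit false

open scoped Manifold ContDiff Topology Distributions
open MeasureTheory TopologicalSpace Set

namespace Pool.Agent.Helper473.GH

/-- The cone generated by the Dirac currents. -/
noncomputable def cones_C : PointedCone ℝ (Current ⊤ 2) :=
  PointedCone.hull ℝ {T | ∃ y, ∃ w ∈ coneJ, T = dirac y w}

theorem cones_w_mem (v : E) : wedge v (J v) ∈ coneJ :=
  subset_closure (Submodule.subset_span ⟨v, rfl⟩)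

theorem cones_dirac_mem (y v : E) : dirac y (wedge v (J v)) ∈ cones_C :=
  Submodule.subset_span ⟨y, _, cones_w_mem v, rfl⟩

theorem cones_add {x y : Current ⊤ 2} (hx : x ∈ cones_C) (hy : y ∈ cones_C) : x + y ∈ cones_C :=
  add_mem hx hy

theorem cones_smul {x : Current ⊤ 2} (hx : x ∈ cones_C) {r : ℝ} (hr : 0 ≤ r) : r • x ∈ cones_C :=
  cones_C.smul_mem hr hx

theorem cones_dirac_apply (y v : E) (α : Forms ⊤ 2) :
    dirac y (wedge v (J v)) α = α y ![v, J v] := rfl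

theorem cones_P_cont (a : ℝ × ℝ) : Continuous (P a) := by
  have h : P a = fun q : ℝ × ℝ × ℝ => (((a.1 * q.1 : ℝ) : ℂ) + (q.2.1 : ℂ) * Complex.I,
      ((a.2 * q.1 : ℝ) : ℂ) + (q.2.2 : ℂ) * Complex.I) := by
    funext q
    unfold P
    refine Prod.ext ?_ ?_ <;> apply Complex.ext <;> simp
  rw [h]
  fun_prop

theorem cones_P_re1 (a : ℝ × ℝ) (q : ℝ × ℝ × ℝ) : |a.1 * q.1| ≤ ‖P a q‖ :=
  (Complex.abs_re_le_norm (P a q).1).trans (norm_fst_le (P a q))

theorem cones_P_re2 (a : ℝ × ℝ) (q : ℝ × ℝ × ℝ) : |a.2 * q.1| ≤ ‖P a q‖ :=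
  (Complex.abs_re_le_norm (P a q).2).trans (norm_snd_le (P a q))

theorem cones_P_im1 (a : ℝ × ℝ) (q : ℝ × ℝ × ℝ) : |q.2.1| ≤ ‖P a q‖ :=
  (Complex.abs_im_le_norm (P a q).1).trans (norm_fst_le (P a q))

theorem cones_P_im2 (a : ℝ × ℝ) (q : ℝ × ℝ × ℝ) : |q.2.2| ≤ ‖P a q‖ :=
  (Complex.abs_im_le_norm (P a q).2).trans (norm_snd_le (P a q))

section gen

variable {V F : Type*} [NormedAddCommGroup V] [NormedSpace ℝ V] [NormedAddCommGroup F]
  [NormedSpace ℝ F] {Ω : Opens V}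

/-- the weight -/
noncomputable def cones_g (x : V) : ℝ := (1 + ‖x‖) ^ (5 : ℕ)

theorem cones_g_cont : Continuous (cones_g : V → ℝ) := by
  unfold cones_g
  fun_prop

omit [NormedSpace ℝ V] in
theorem cones_g_pos (x : V) : 0 < cones_g x := by
  unfold cones_g
  positivity

theorem cones_wbd (α : 𝓓(Ω, F)) : ∃ C : ℝ, ∀ x : V, ‖cones_g x • α x‖ ≤ C := by
  have h : HasCompactSupport fun x : V => cones_g x • α x := α.hasCompactSupport.smul_left
  exact h.exists_bound_of_continuous (cones_g_cont.smul α.continuous)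

/-- the weighted form as a bounded continuous function -/
noncomputable def cones_Wf (α : 𝓓(Ω, F)) : BoundedContinuousFunction V F :=
  BoundedContinuousFunction.ofNormedAddCommGroup (fun x => cones_g x • α x)
    (cones_g_cont.smul α.continuous) (cones_wbd α).choose (cones_wbd α).choose_spec

theorem cones_Wf_apply (α : 𝓓(Ω, F)) (x : V) : cones_Wf α x = cones_g x • α x := rfl

theorem cones_Wf_add (α β : 𝓓(Ω, F)) : cones_Wf (α + β) = cones_Wf α + cones_Wf β := by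
  ext1 x
  rw [BoundedContinuousFunction.add_apply, cones_Wf_apply, cones_Wf_apply, cones_Wf_apply,
    ← smul_add]
  rfl

theorem cones_Wf_smul (c : ℝ) (α : 𝓓(Ω, F)) : cones_Wf (c • α) = c • cones_Wf α := by
  ext1 x
  rw [BoundedContinuousFunction.smul_apply, cones_Wf_apply, cones_Wf_apply, smul_comm]
  rfl

theorem cones_Wf_cont (K : Compacts V) (hK : (K : Set V) ⊆ (Ω : Set V)) :
    Continuous ((cones_Wf : 𝓓(Ω, F) → BoundedContinuousFunction V F) ∘
      (TestFunction.ofSupportedIn hK : 𝓓^{⊤}_{K}(V, F) → 𝓓(Ω, F))) := by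
  obtain ⟨M, hM⟩ := K.isCompact.exists_bound_of_continuousOn
    (cones_g_cont : Continuous (cones_g : V → ℝ)).continuousOn
  obtain ⟨T, hT⟩ : ∃ T : 𝓓^{⊤}_{K}(V, F) →L[ℝ] BoundedContinuousFunction V F,
      ∀ f x, T f x = f x :=
    ⟨ContDiffMapSupportedIn.toBoundedContinuousFunctionCLM ℝ, fun _ _ => rfl⟩
  have hM0 : 0 ≤ |M| := abs_nonneg M
  have hle : ∀ f : 𝓓^{⊤}_{K}(V, F),
      ‖cones_Wf (TestFunction.ofSupportedIn hK f)‖ ≤ |M| * ‖T f‖ := by
    intro f
    rw [BoundedContinuousFunction.norm_le (by positivity)]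
    intro x
    rw [cones_Wf_apply, norm_smul]
    by_cases hx : x ∈ K
    · refine mul_le_mul ((hM x hx).trans (le_abs_self M)) ?_ (norm_nonneg _) hM0
      have := (T f).norm_coe_le_norm x
      rw [hT] at this
      exact this
    · have h0 : (TestFunction.ofSupportedIn hK f : 𝓓(Ω, F)) x = 0 := by
        have h1 := f.zero_on_compl
        exact h1 hx
      rw [h0, norm_zero, mul_zero]
      positivity
  have hadd : ∀ f g : 𝓓^{⊤}_{K}(V, F),
      cones_Wf (TestFunction.ofSupportedIn hK (f + g) : 𝓓(Ω, F)) =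
      cones_Wf (TestFunction.ofSupportedIn hK f : 𝓓(Ω, F)) +
      cones_Wf (TestFunction.ofSupportedIn hK g : 𝓓(Ω, F)) := fun f g => by
    rw [← cones_Wf_add]
    rfl
  have hzero : cones_Wf (TestFunction.ofSupportedIn hK (0 : 𝓓^{⊤}_{K}(V, F)) : 𝓓(Ω, F)) = 0 := by
    have h1 := hadd 0 0
    rw [add_zero] at h1
    exact left_eq_add.1 h1
  let L : 𝓓^{⊤}_{K}(V, F) →+ BoundedContinuousFunction V F :=
    { toFun := fun f => cones_Wf (TestFunction.ofSupportedIn hK f : 𝓓(Ω, F))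
      map_zero' := hzero
      map_add' := hadd }
  have hc : Continuous L := by
    refine continuous_of_continuousAt_zero L ?_
    rw [ContinuousAt, map_zero]
    refine squeeze_zero_norm (a := fun f => |M| * ‖T f‖) hle ?_
    have h2 : Filter.Tendsto (fun f => |M| * ‖T f‖) (𝓝 0) (𝓝 (|M| * ‖T 0‖)) :=
      (continuous_const.mul T.continuous.norm).tendsto 0
    rwa [map_zero, norm_zero, mul_zero] at h2
  exact hc

/-- the weight as a continuous linear map -/
noncomputable def cones_W (Ω : Opens V) (F : Type*) [NormedAddCommGroup F] [NormedSpace ℝ F] :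
    𝓓(Ω, F) →L[ℝ] BoundedContinuousFunction V F :=
  TestFunction.mkCLM ℝ cones_Wf cones_Wf_add cones_Wf_smul cones_Wf_cont

theorem cones_img {X : Type*} [NormedAddCommGroup X] [NormedSpace ℝ X] (Λ : 𝓓(Ω, F) →L[ℝ] X)
    {B : Set 𝓓(Ω, F)} (hB : Bornology.IsVonNBounded ℝ B) : ∃ C : ℝ, ∀ α ∈ B, ‖Λ α‖ ≤ C := by
  have h1 : Bornology.IsBounded (Λ '' B) := (NormedSpace.isVonNBounded_iff ℝ).1 (hB.image Λ)
  obtain ⟨C1, hC1⟩ := h1.exists_norm_le
  exact ⟨C1, fun α hα => hC1 _ (mem_image_of_mem _ hα)⟩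

theorem cones_bd1 {B : Set 𝓓(Ω, F)} (hB : Bornology.IsVonNBounded ℝ B) : ∃ C : ℝ,
    ∀ α ∈ B, ∀ x : V, ‖α x‖ ≤ C * (1 + ‖x‖) ^ (-(5 : ℝ)) := by
  obtain ⟨C1, hC1⟩ := cones_img (cones_W Ω F) hB
  refine ⟨C1, fun α hα x => ?_⟩
  have h3 := (BoundedContinuousFunction.norm_coe_le_norm (cones_W Ω F α) x).trans (hC1 _ hα)
  have h4 : cones_W Ω F α x = cones_g x • α x := rfl
  rw [h4, norm_smul, Real.norm_eq_abs, abs_of_pos (cones_g_pos x)] at h3
  have h5 : (1 + ‖x‖) ^ (-(5 : ℝ)) = (cones_g x)⁻¹ := by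
    rw [Real.rpow_neg (by positivity)]
    congr 1
    unfold cones_g
    exact_mod_cast Real.rpow_natCast (1 + ‖x‖) 5
  rw [h5, ← div_eq_mul_inv, le_div_iff₀ (cones_g_pos x), mul_comm]
  exact h3

theorem cones_bd3 {B : Set 𝓓(Ω, F)} (hB : Bornology.IsVonNBounded ℝ B) : ∃ C : ℝ,
    ∀ α ∈ B, ∀ x : V, ‖α x‖ ≤ C := by
  obtain ⟨C, hC⟩ := cones_bd1 hB
  refine ⟨|C|, fun α hα x => (hC α hα x).trans ?_⟩
  have h1 : (1 + ‖x‖) ^ (-(5 : ℝ)) ≤ 1 :=
    Real.rpow_le_one_of_one_le_of_nonpos (by linarith [norm_nonneg x]) (by norm_num)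
  have h2 : 0 ≤ (1 + ‖x‖) ^ (-(5 : ℝ)) := by positivity
  calc C * (1 + ‖x‖) ^ (-(5 : ℝ)) ≤ |C| * (1 + ‖x‖) ^ (-(5 : ℝ)) :=
        mul_le_mul_of_nonneg_right (le_abs_self C) h2
    _ ≤ |C| * 1 := mul_le_mul_of_nonneg_left h1 (abs_nonneg C)
    _ = |C| := mul_one _

theorem cones_bd2a {B : Set 𝓓(Ω, F)} (hB : Bornology.IsVonNBounded ℝ B) : ∃ C : ℝ,
    ∀ α ∈ B, ∀ x : V, ‖fderiv ℝ α x‖ ≤ C := by
  obtain ⟨C, hC⟩ := cones_bd3
    (hB.image (TestFunction.fderivCLM ℝ ⊤ ⊤ : 𝓓(Ω, F) →L[ℝ] 𝓓(Ω, V →L[ℝ] F)))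
  refine ⟨C, fun α hα x => ?_⟩
  have h1 := hC _ (mem_image_of_mem _ hα) x
  rwa [TestFunction.fderivCLM_apply, if_pos (by simp)] at h1

theorem cones_bd2 {B : Set 𝓓(Ω, F)} (hB : Bornology.IsVonNBounded ℝ B) : ∃ C : ℝ,
    ∀ α ∈ B, ∀ x y : V, ‖α x - α y‖ ≤ C * ‖x - y‖ := by
  obtain ⟨C, hC⟩ := cones_bd2a hB
  refine ⟨C, fun α hα x y => ?_⟩
  have h4 : Differentiable ℝ α := α.contDiff.differentiable (by simp)
  exact Convex.norm_image_sub_le_of_norm_fderiv_le (s := univ) (fun z _ => h4 z)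
    (fun z _ => hC α hα z) convex_univ (mem_univ _) (mem_univ _)

end gen

theorem cones_haar2 : (volume : Measure (ℝ × ℝ)).IsAddHaarMeasure := by
  have h : (volume : Measure (ℝ × ℝ)) = (volume : Measure ℝ).prod (volume : Measure ℝ) := rfl
  rw [h]
  exact Measure.prod.instIsAddHaarMeasure _ _

theorem cones_haar : (volume : Measure (ℝ × ℝ × ℝ)).IsAddHaarMeasure := by
  have h : (volume : Measure (ℝ × ℝ × ℝ)) = (volume : Measure ℝ).prod
    (volume : Measure (ℝ × ℝ)) := rfl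
  have h2 := cones_haar2
  rw [h]
  exact Measure.prod.instIsAddHaarMeasure _ _

/-- The integral of a function with values in a closed cone. -/
theorem cones_int {X Ω : Type*} [NormedAddCommGroup X] [NormedSpace ℝ X] [CompleteSpace X]
    [MeasurableSpace Ω] {μ : Measure Ω} {K : Set X} (hK : Convex ℝ K) (hKc : IsClosed K)
    (h0 : (0 : X) ∈ K) (hs : ∀ x ∈ K, ∀ r : ℝ, 0 ≤ r → r • x ∈ K) {G : Ω → X}
    (hG : Integrable G μ) (hGK : ∀ q, G q ∈ K) : ∫ q, G q ∂μ ∈ K := by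
  by_contra hcon
  obtain ⟨f, u, h1, h2⟩ := geometric_hahn_banach_point_closed hK hKc hcon
  have hu : u < 0 := by
    have := h2 0 h0
    rwa [map_zero] at this
  have h3 : ∀ b ∈ K, 0 ≤ f b := by
    intro b hb
    by_contra hneg
    push Not at hneg
    have h4 := h2 ((u / f b) • b) (hs b hb _ (div_nonneg_of_nonpos hu.le hneg.le))
    rw [map_smul, smul_eq_mul, div_mul_cancel₀ _ hneg.ne] at h4
    exact lt_irrefl _ h4
  have h4 : f (∫ q, G q ∂μ) = ∫ q, f (G q) ∂μ := (f.integral_comp_comm hG).symm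
  have h5 : 0 ≤ ∫ q, f (G q) ∂μ := integral_nonneg fun q => h3 _ (hGK q)
  rw [← h4] at h5
  linarith

section main

variable {B : Set (Forms ⊤ 2)} (hB : Bornology.IsVonNBounded ℝ B)

theorem cones_cur_bd (hB : Bornology.IsVonNBounded ℝ B) (c : Current ⊤ 2) :
    ∃ C : ℝ, ∀ α : B, ‖c (α : Forms ⊤ 2)‖ ≤ C := by
  have h1 : Bornology.IsBounded (c '' B) := (NormedSpace.isVonNBounded_iff ℝ).1 (hB.image c)
  obtain ⟨C, hC⟩ := h1.exists_norm_le
  exact ⟨C, fun α => hC _ (mem_image_of_mem _ α.2)⟩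

/-- restriction of currents to `B` -/
noncomputable def cones_res (hB : Bornology.IsVonNBounded ℝ B) :
    Current ⊤ 2 →ₗ[ℝ] BoundedContinuousFunction B ℝ where
  toFun c := BoundedContinuousFunction.ofNormedAddCommGroup (fun α : B => c (α : Forms ⊤ 2))
    (c.continuous.comp continuous_subtype_val) (cones_cur_bd hB c).choose
    (cones_cur_bd hB c).choose_spec
  map_add' _ _ := by ext1 α; rfl
  map_smul' _ _ := by ext1 α; rfl

theorem cones_res_apply (hB : Bornology.IsVonNBounded ℝ B) (c : Current ⊤ 2) (α : B) :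
    cones_res hB c α = c (α : Forms ⊤ 2) := rfl

theorem cones_low (a : ℝ × ℝ) (ha : a ≠ 0) : ∃ m : ℝ, 0 < m ∧ m ≤ 1 ∧
    ∀ q : ℝ × ℝ × ℝ, m * ‖q‖ ≤ ‖P a q‖ := by
  have h1 : 0 < |a.1| ∨ 0 < |a.2| := by
    by_contra h
    push Not at h
    apply ha
    refine Prod.ext ?_ ?_
    · exact abs_eq_zero.1 (le_antisymm h.1 (abs_nonneg _))
    · exact abs_eq_zero.1 (le_antisymm h.2 (abs_nonneg _))
  obtain ⟨m, hm, hm2⟩ : ∃ m : ℝ, 0 < m ∧ ∀ q : ℝ × ℝ × ℝ, m * |q.1| ≤ ‖P a q‖ := by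
    rcases h1 with h | h
    · exact ⟨_, h, fun q => by rw [← abs_mul]; exact cones_P_re1 a q⟩
    · exact ⟨_, h, fun q => by rw [← abs_mul]; exact cones_P_re2 a q⟩
  refine ⟨min m 1, lt_min hm one_pos, min_le_right _ _, fun q => ?_⟩
  have hm1 : min m 1 ≤ 1 := min_le_right _ _
  have hm3 : 0 ≤ min m 1 := (lt_min hm one_pos).le
  rw [Prod.norm_def, Prod.norm_def, mul_max_of_nonneg _ _ hm3, mul_max_of_nonneg _ _ hm3]
  refine max_le ?_ (max_le ?_ ?_)
  · exact (mul_le_mul_of_nonneg_right (min_le_left _ _) (norm_nonneg _)).trans (hm2 q)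
  · exact (mul_le_of_le_one_left (norm_nonneg _) hm1).trans (cones_P_im1 a q)
  · exact (mul_le_of_le_one_left (norm_nonneg _) hm1).trans (cones_P_im2 a q)

theorem cones_res_mem (hB : Bornology.IsVonNBounded ℝ B) (a : ℝ × ℝ) (ha : a ≠ 0)
    (T : Current ⊤ 2) (hT : ∀ α : Forms ⊤ 2, T α = TV a α) :
    cones_res hB T ∈ closure (cones_res hB '' (cones_C : Set (Current ⊤ 2))) := by
  obtain ⟨C, hC0, hC1, hC2⟩ : ∃ C : ℝ, 0 ≤ C ∧
      (∀ α ∈ B, ∀ x : E, ‖α x‖ ≤ C * (1 + ‖x‖) ^ (-(5 : ℝ))) ∧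
      ∀ α ∈ B, ∀ x y : E, ‖α x - α y‖ ≤ C * ‖x - y‖ := by
    obtain ⟨C1, h1⟩ := cones_bd1 hB
    obtain ⟨C2, h2⟩ := cones_bd2 hB
    refine ⟨max 0 (max C1 C2), le_max_left _ _, fun α hα x => (h1 α hα x).trans ?_,
      fun α hα x y => (h2 α hα x y).trans ?_⟩
    · exact mul_le_mul_of_nonneg_right ((le_max_left _ _).trans (le_max_right _ _))
        (by positivity)
    · exact mul_le_mul_of_nonneg_right ((le_max_right _ _).trans (le_max_right _ _))
        (norm_nonneg _)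
  obtain ⟨m, hm0, hm1, hm⟩ := cones_low a ha
  obtain ⟨w, hw⟩ : ∃ w, w = wedge (vec a) (J (vec a)) := ⟨_, rfl⟩
  have hap : ∀ (y : E) (α : B), cones_res hB (dirac y w) α = w ((α : Forms ⊤ 2) y) := fun _ _ => rfl
  -- continuity
  have hlip : ∀ y y' : E, dist (cones_res hB (dirac y w)) (cones_res hB (dirac y' w)) ≤
      (‖w‖ * C) * dist y y' := by
    intro y y'
    rw [dist_eq_norm, BoundedContinuousFunction.norm_le (by positivity)]
    intro α
    rw [BoundedContinuousFunction.sub_apply, hap, hap, ← map_sub, dist_eq_norm, mul_assoc]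
    exact (w.le_opNorm _).trans (mul_le_mul_of_nonneg_left (hC2 _ α.2 _ _) (norm_nonneg _))
  have hcont : Continuous fun y : E => cones_res hB (dirac y w) :=
    (LipschitzWith.of_dist_le_mul (K := ⟨‖w‖ * C, by positivity⟩) hlip).continuous
  have hGc : Continuous fun q : ℝ × ℝ × ℝ => cones_res hB (dirac (P a q) w) :=
    hcont.comp (cones_P_cont a)
  -- decay
  have hdec : ∀ q : ℝ × ℝ × ℝ, ‖cones_res hB (dirac (P a q) w)‖ ≤
      (‖w‖ * (C * m ^ (-(5 : ℝ)))) * (1 + ‖q‖) ^ (-(5 : ℝ)) := by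
    intro q
    have hmq : 0 ≤ m ^ (-(5 : ℝ)) := by positivity
    rw [BoundedContinuousFunction.norm_le (by positivity)]
    intro α
    rw [hap]
    refine (w.le_opNorm _).trans ?_
    rw [mul_assoc]
    refine mul_le_mul_of_nonneg_left ?_ (norm_nonneg _)
    refine (hC1 _ α.2 _).trans ?_
    rw [mul_assoc]
    refine mul_le_mul_of_nonneg_left ?_ hC0
    rw [← Real.mul_rpow hm0.le (by positivity)]
    refine Real.rpow_le_rpow_of_nonpos (by positivity) ?_ (by norm_num)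
    have := hm q
    linarith
  have hint : Integrable (fun q : ℝ × ℝ × ℝ => cones_res hB (dirac (P a q) w))
      (volume.restrict (Ioi (0 : ℝ) ×ˢ (univ : Set (ℝ × ℝ)))) := by
    have h1 : Integrable (fun q : ℝ × ℝ × ℝ => (1 + ‖q‖) ^ (-(5 : ℝ))) volume := by
      have := cones_haar
      refine integrable_one_add_norm ?_
      have : Module.finrank ℝ (ℝ × ℝ × ℝ) = 3 := by simp
      rw [this]
      norm_num
    have h2 := (h1.const_mul (‖w‖ * (C * m ^ (-(5 : ℝ))))).restrict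
      (s := Ioi (0 : ℝ) ×ˢ (univ : Set (ℝ × ℝ)))
    exact h2.mono' hGc.aestronglyMeasurable (Filter.Eventually.of_forall hdec)
  have hval : cones_res hB T = ∫ q in Ioi (0 : ℝ) ×ˢ (univ : Set (ℝ × ℝ)),
      cones_res hB (dirac (P a q) w) := by
    ext1 α
    have h1 := (BoundedContinuousFunction.evalCLM ℝ α).integral_comp_comm hint
    have h2 : (BoundedContinuousFunction.evalCLM ℝ α)
        (∫ q in Ioi (0 : ℝ) ×ˢ (univ : Set (ℝ × ℝ)), cones_res hB (dirac (P a q) w)) =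
        (∫ q in Ioi (0 : ℝ) ×ˢ (univ : Set (ℝ × ℝ)), cones_res hB (dirac (P a q) w)) α := rfl
    rw [← h2, ← h1, cones_res_apply, hT]
    subst hw
    rfl
  rw [hval]
  refine cones_int (Convex.closure ?_) isClosed_closure ?_ ?_ hint ?_
  · rintro _ ⟨x, hx, rfl⟩ _ ⟨y, hy, rfl⟩ s t hs ht _
    refine ⟨s • x + t • y, cones_add (cones_smul hx hs) (cones_smul hy ht), ?_⟩
    rw [map_add, map_smul, map_smul]
  · refine subset_closure ⟨0, zero_mem cones_C, map_zero _⟩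
  · intro x hx r hr
    refine map_mem_closure (f := fun x : BoundedContinuousFunction B ℝ => r • x)
      (continuous_const_smul r) hx ?_
    rintro _ ⟨y, hy, rfl⟩
    exact ⟨r • y, cones_smul hy hr, by rw [map_smul]⟩
  · intro q
    refine subset_closure ⟨_, ?_, rfl⟩
    rw [hw]
    exact cones_dirac_mem _ _

end main

theorem t_CONES : S_CONE := by
  intro a ha T hT
  show T ∈ closure (cones_C : Set (Current ⊤ 2))
  rw [mem_closure_iff_nhds]
  intro t ht
  have h1 : Filter.Tendsto (fun f : Current ⊤ 2 => T + f) (𝓝 0) (𝓝 T) := by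
    have h := (continuous_const_add T).tendsto (0 : Current ⊤ 2)
    rwa [add_zero] at h
  have h2 := h1 ht
  rw [Filter.mem_map, ContinuousLinearMap.hasBasis_nhds_zero.mem_iff] at h2
  obtain ⟨⟨B, V⟩, ⟨hB, hV⟩, hsub⟩ := h2
  obtain ⟨ε, hε, hball⟩ := Metric.mem_nhds_iff.1 hV
  obtain ⟨_, ⟨c, hc, rfl⟩, hd⟩ := Metric.mem_closure_iff.1 (cones_res_mem hB a ha T hT) ε hε
  refine ⟨c, ?_, hc⟩
  have h3 : c - T ∈ (fun f : Current ⊤ 2 => T + f) ⁻¹' t := by
    apply hsub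
    intro α hα
    apply hball
    have h4 := (BoundedContinuousFunction.dist_coe_le_dist (f := cones_res hB T)
      (g := cones_res hB c) (⟨α, hα⟩ : B)).trans_lt hd
    rw [cones_res_apply, cones_res_apply, dist_comm, Real.dist_eq] at h4
    rw [Metric.mem_ball, dist_zero_right, Real.norm_eq_abs]
    exact h4
  have h5 : T + (c - T) = c := by abel
  have h6 : T + (c - T) ∈ t := h3
  rwa [h5] at h6

end Pool.Agent.Helper473.GH
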