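import Pool.Agent.Helper473.GH.Stmts

/-!
# The boundary of the current of a face (Stokes)
-/

set_option autoImplicit false

open scoped Manifold ContDiff Topology Distributions
open MeasureTheory TopologicalSpace Set

namespace Pool.Agent.Helper473.GH

/-- evaluation of `1`-forms -/
noncomputable def cyc_ev (m : Fin 1 → E) : Alt 1 →L[ℝ] ℝ :=
  (ContinuousMultilinearMap.apply ℝ (fun _ : Fin 1 => E) ℝ m).comp
    (ContinuousAlternatingMap.toContinuousMultilinearMapCLM ℝ)

theorem cyc_ev_apply (m : Fin 1 → E) (α : Alt 1) : cyc_ev m α = α m := rfl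

/-- the parametrisation as a linear map -/
noncomputable def cyc_P (a : ℝ × ℝ) : (ℝ × ℝ × ℝ) →L[ℝ] E :=
  LinearMap.toContinuousLinearMap
    { toFun := P a
      map_add' := by
        intro q r
        refine Prod.ext (Complex.ext ?_ ?_) (Complex.ext ?_ ?_) <;> simp [P, mul_add]
      map_smul' := by
        intro c q
        refine Prod.ext (Complex.ext ?_ ?_) (Complex.ext ?_ ?_) <;> simp [P, mul_left_comm] }

theorem cyc_P_apply (a : ℝ × ℝ) (q : ℝ × ℝ × ℝ) : cyc_P a q = P a q := rfl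

theorem cyc_P_inj {a : ℝ × ℝ} (ha : a ≠ 0) : Function.Injective (cyc_P a) := by
  rw [injective_iff_map_eq_zero]
  intro q hq
  rw [cyc_P_apply] at hq
  have h1 : a.1 * q.1 = 0 := by
    have := congrArg (fun z : E => z.1.re) hq
    simpa [P] using this
  have h2 : q.2.1 = 0 := by
    have := congrArg (fun z : E => z.1.im) hq
    simpa [P] using this
  have h3 : a.2 * q.1 = 0 := by
    have := congrArg (fun z : E => z.2.re) hq
    simpa [P] using this
  have h4 : q.2.2 = 0 := by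
    have := congrArg (fun z : E => z.2.im) hq
    simpa [P] using this
  have h5 : q.1 = 0 := by
    by_contra hne
    apply ha
    exact Prod.ext ((mul_eq_zero.1 h1).resolve_right hne) ((mul_eq_zero.1 h3).resolve_right hne)
  exact Prod.ext h5 (Prod.ext h2 h4)

theorem cyc_P_emb {a : ℝ × ℝ} (ha : a ≠ 0) : Topology.IsClosedEmbedding (cyc_P a) :=
  LinearMap.isClosedEmbedding_of_injective (f := (cyc_P a : (ℝ × ℝ × ℝ) →ₗ[ℝ] E))
    (LinearMap.ker_eq_bot.2 (cyc_P_inj ha))

theorem cyc_int_fderiv {g : ℝ × ℝ → ℝ} (hg : ContDiff ℝ 1 g) (hs : HasCompactSupport g)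
    (v : ℝ × ℝ) : ∫ p, fderiv ℝ g p v = 0 := by
  have hc : Continuous fun p => fderiv ℝ g p v :=
    (hg.continuous_fderiv one_ne_zero).clm_apply continuous_const
  have hs' : HasCompactSupport fun p => fderiv ℝ g p v :=
    (hs.fderiv ℝ).comp_left (g := fun L : (ℝ × ℝ) →L[ℝ] ℝ => L v) (by simp)
  have h := integral_mul_fderiv_eq_neg_fderiv_mul_of_integrable (μ := (volume : Measure (ℝ × ℝ)))
    (f := fun _ : ℝ × ℝ => (1 : ℝ)) (g := g) (v := v) (by simp)
    (by simpa using hc.integrable_of_hasCompactSupport hs')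
    (by simpa using hg.continuous.integrable_of_hasCompactSupport hs)
    (fun x _ => differentiableAt_const _)
    (fun x _ => (hg.differentiable one_ne_zero) x)
  simpa using h

theorem cyc_slice (x : ℝ) : Topology.IsClosedEmbedding (fun y : ℝ × ℝ => ((x, y) : ℝ × ℝ × ℝ)) :=
  Topology.IsClosedEmbedding.of_continuous_injective_isClosedMap (by fun_prop)
    (fun a b h => (Prod.ext_iff.1 h).2)
    (by
      intro s hs
      have : (fun y : ℝ × ℝ => ((x, y) : ℝ × ℝ × ℝ)) '' s = {x} ×ˢ s := by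
        ext ⟨u, v⟩
        simp only [mem_image, Prod.mk.injEq, mem_prod, mem_singleton_iff]
        constructor
        · rintro ⟨y, hy, rfl, rfl⟩
          exact ⟨rfl, hy⟩
        · rintro ⟨rfl, h⟩
          exact ⟨v, h, rfl, rfl⟩
      rw [this]
      exact isClosed_singleton.prod hs)

theorem cyc_slice' (y : ℝ × ℝ) : Topology.IsClosedEmbedding (fun x : ℝ => ((x, y) : ℝ × ℝ × ℝ)) :=
  Topology.IsClosedEmbedding.of_continuous_injective_isClosedMap (by fun_prop)
    (fun a b h => (Prod.ext_iff.1 h).1)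
    (by
      intro s hs
      have : (fun x : ℝ => ((x, y) : ℝ × ℝ × ℝ)) '' s = s ×ˢ {y} := by
        ext ⟨u, v⟩
        simp only [mem_image, Prod.mk.injEq, mem_prod, mem_singleton_iff]
        constructor
        · rintro ⟨y, hy, rfl, rfl⟩
          exact ⟨hy, rfl⟩
        · rintro ⟨h, rfl⟩
          exact ⟨u, h, rfl, rfl⟩
      rw [this]
      exact hs.prod isClosed_singleton)

theorem cyc_fint {h : ℝ × ℝ × ℝ → ℝ} (hh : ContDiff ℝ 1 h) (hs : HasCompactSupport h)
    (v : ℝ × ℝ × ℝ) : Integrable (fun q => fderiv ℝ h q v) := by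
  have hc : Continuous fun p => fderiv ℝ h p v :=
    (hh.continuous_fderiv one_ne_zero).clm_apply continuous_const
  have hs' : HasCompactSupport fun p => fderiv ℝ h p v :=
    (hs.fderiv ℝ).comp_left (g := fun L : (ℝ × ℝ × ℝ) →L[ℝ] ℝ => L v) (by simp)
  exact hc.integrable_of_hasCompactSupport hs'

theorem cyc_B {h : ℝ × ℝ × ℝ → ℝ} (hh : ContDiff ℝ 1 h) (hs : HasCompactSupport h)
    (u : ℝ × ℝ) :
    ∫ q in Ioi (0 : ℝ) ×ˢ (univ : Set (ℝ × ℝ)), fderiv ℝ h q (0, u) = 0 := by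
  have hI := cyc_fint hh hs (0, u)
  have h1 := setIntegral_prod (μ := (volume : Measure ℝ)) (ν := (volume : Measure (ℝ × ℝ)))
    (s := Ioi (0:ℝ)) (t := univ) (fun q => fderiv ℝ h q (0, u)) hI.integrableOn
  rw [← Measure.volume_eq_prod] at h1
  rw [h1]
  have h2 : ∀ x : ℝ, ∫ y in (univ : Set (ℝ × ℝ)), fderiv ℝ h (x, y) (0, u) = 0 := by
    intro x
    rw [Measure.restrict_univ]
    have h3 : ∀ y : ℝ × ℝ, fderiv ℝ h (x, y) (0, u) = fderiv ℝ (fun y => h (x, y)) y u := by
      intro y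
      have h4 : HasFDerivAt (fun y => h (x, y)) _ y :=
        ((hh.differentiable one_ne_zero (x, y)).hasFDerivAt).comp y (hasFDerivAt_prodMk_right x y)
      rw [h4.fderiv]
      rfl
    simp_rw [h3]
    refine cyc_int_fderiv (hh.comp (by fun_prop)) ?_ u
    exact hs.comp_isClosedEmbedding (cyc_slice x)
  simp_rw [h2]
  simp

theorem cyc_lin {X : Type*} [MeasurableSpace X] {μ : Measure X} {f g h : X → ℝ} (c d : ℝ)
    (hf : Integrable f μ) (hg : Integrable g μ) (hh : Integrable h μ) :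
    (∫ q, (f q - (c * g q + d * h q)) ∂μ) = (∫ q, f q ∂μ) - (c * (∫ q, g q ∂μ) + d * (∫ q, h q ∂μ)) := by
  have I2 : Integrable (fun q => c * g q) μ := hg.const_mul c
  have I3 : Integrable (fun q => d * h q) μ := hh.const_mul d
  have I4 : Integrable (fun q => c * g q + d * h q) μ := I2.add I3
  rw [integral_sub hf I4, integral_add I2 I3, integral_const_mul, integral_const_mul]

theorem cyc_A {h : ℝ × ℝ × ℝ → ℝ} (hh : ContDiff ℝ 1 h) (hs : HasCompactSupport h) :
    ∫ q in Ioi (0 : ℝ) ×ˢ (univ : Set (ℝ × ℝ)), fderiv ℝ h q (1, 0) = - ∫ p, h (0, p) := by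
  have hI := cyc_fint hh hs (1, 0)
  have hI2 : Integrable (fun q => fderiv ℝ h q (1, 0))
      ((volume.restrict (Ioi (0:ℝ))).prod (volume.restrict (univ : Set (ℝ × ℝ)))) := by
    rw [Measure.prod_restrict, ← Measure.volume_eq_prod]
    exact hI.restrict
  have h1 := integral_prod_symm (μ := (volume : Measure ℝ).restrict (Ioi 0))
    (ν := (volume : Measure (ℝ × ℝ)).restrict univ) (fun q => fderiv ℝ h q (1, 0)) hI2
  rw [Measure.prod_restrict, ← Measure.volume_eq_prod] at h1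
  rw [h1, Measure.restrict_univ, ← integral_neg]
  congr 1
  ext y
  have h3 : ∀ x : ℝ, fderiv ℝ h (x, y) (1, 0) = deriv (fun x => h (x, y)) x := by
    intro x
    have h4 : HasFDerivAt (fun x => h (x, y)) _ x :=
      ((hh.differentiable one_ne_zero (x, y)).hasFDerivAt).comp x (hasFDerivAt_prodMk_left x y)
    rw [← fderiv_apply_one_eq_deriv, h4.fderiv]
    rfl
  simp_rw [h3]
  have h5 : ContDiff ℝ 1 (fun x => h (x, y)) := hh.comp (by fun_prop)
  have h6 : HasCompactSupport (fun x => h (x, y)) := hs.comp_isClosedEmbedding (cyc_slice' y)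
  exact h6.integral_Ioi_deriv_eq h5 0

theorem t_CYC : S_CYC := by
  intro a ha β
  have hβ : ContDiff ℝ 1 (β : E → Alt 1) := β.contDiff.of_le (by simp)
  have hβs : HasCompactSupport (β : E → Alt 1) := β.hasCompactSupport
  have hF : ∀ m : Fin 1 → E, ContDiff ℝ 1 (fun q => cyc_ev m (β (cyc_P a q))) := fun m =>
    (cyc_ev m).contDiff.comp (hβ.comp (cyc_P a).contDiff)
  have hFs : ∀ m : Fin 1 → E, HasCompactSupport (fun q => cyc_ev m (β (cyc_P a q))) := fun m =>
    (hβs.comp_isClosedEmbedding (cyc_P_emb ha)).comp_left (g := cyc_ev m) (map_zero _)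
  have hFd : ∀ (m : Fin 1 → E) (q u : ℝ × ℝ × ℝ),
      fderiv ℝ (fun q => cyc_ev m (β (cyc_P a q))) q u = fderiv ℝ β (P a q) (P a u) m := by
    intro m q u
    have h1 : HasFDerivAt (fun q => cyc_ev m (β (cyc_P a q)))
        ((cyc_ev m).comp ((fderiv ℝ β (cyc_P a q)).comp (cyc_P a))) q :=
      (cyc_ev m).hasFDerivAt.comp q
        (((hβ.differentiable one_ne_zero (cyc_P a q)).hasFDerivAt).comp q (cyc_P a).hasFDerivAt)
    rw [h1.fderiv]
    rfl
  have e1 : P a (1, 0) = vec a := by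
    refine Prod.ext (Complex.ext ?_ ?_) (Complex.ext ?_ ?_) <;> simp [P, vec]
  have e2 : J (vec a) = a.1 • P a (0, (1, 0)) + a.2 • P a (0, (0, 1)) := by
    refine Prod.ext (Complex.ext ?_ ?_) (Complex.ext ?_ ?_) <;> simp [P, vec, J]
  have key : ∀ q : ℝ × ℝ × ℝ, dForm ⊤ 1 β (P a q) ![vec a, J (vec a)] =
      fderiv ℝ (fun q => cyc_ev ![J (vec a)] (β (cyc_P a q))) q (1, 0)
      - (a.1 * fderiv ℝ (fun q => cyc_ev ![vec a] (β (cyc_P a q))) q (0, (1, 0))
        + a.2 * fderiv ℝ (fun q => cyc_ev ![vec a] (β (cyc_P a q))) q (0, (0, 1))) := by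
    intro q
    rw [hFd, hFd, hFd, e1]
    have hG : ∀ (m : Fin 1 → E) (p u : E), fderiv ℝ (fun x => β x m) p u = fderiv ℝ β p u m := by
      intro m p u
      have h1 : HasFDerivAt (fun x => cyc_ev m (β x)) ((cyc_ev m).comp (fderiv ℝ β p)) p :=
        (cyc_ev m).hasFDerivAt.comp p ((hβ.differentiable one_ne_zero p).hasFDerivAt)
      have h2 : (fun x => β x m) = fun x => cyc_ev m (β x) := rfl
      rw [h2, h1.fderiv]
      rfl
    rw [dForm_apply, extDeriv_apply (hβ.differentiable one_ne_zero _), Fin.sum_univ_two]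
    have r0 : Fin.removeNth 0 ![vec a, J (vec a)] = ![J (vec a)] := by
      funext i; fin_cases i; rfl
    have r1 : Fin.removeNth 1 ![vec a, J (vec a)] = ![vec a] := by
      funext i; fin_cases i; rfl
    rw [r0, r1, hG, hG]
    have r2 : (![vec a, J (vec a)] : Fin 2 → E) 0 = vec a := rfl
    have r3 : (![vec a, J (vec a)] : Fin 2 → E) 1 = a.1 • P a (0, (1, 0)) + a.2 • P a (0, (0, 1)) :=
      e2
    rw [r2, r3, map_add, map_smul, map_smul]
    simp only [Fin.val_zero, pow_zero, one_smul, Fin.val_one, pow_one, neg_smul,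
      ContinuousAlternatingMap.add_apply, ContinuousAlternatingMap.smul_apply, smul_eq_mul]
    ring
  unfold TV
  simp_rw [key]
  have I1 := (cyc_fint (hF ![J (vec a)]) (hFs _) (1, 0)).integrableOn
    (s := Ioi (0 : ℝ) ×ˢ (univ : Set (ℝ × ℝ)))
  have I2 := (cyc_fint (hF ![vec a]) (hFs _) (0, (1, 0))).integrableOn
    (s := Ioi (0 : ℝ) ×ˢ (univ : Set (ℝ × ℝ)))
  have I3 := (cyc_fint (hF ![vec a]) (hFs _) (0, (0, 1))).integrableOn
    (s := Ioi (0 : ℝ) ×ˢ (univ : Set (ℝ × ℝ)))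
  rw [cyc_lin a.1 a.2 I1 I2 I3, cyc_A (hF _) (hFs _), cyc_B (hF _) (hFs _), cyc_B (hF _) (hFs _)]
  rw [mul_zero, mul_zero, add_zero, sub_zero]
  congr 1
  congr 1
  ext p
  rw [cyc_ev_apply, cyc_P_apply]
  have : P a (0, p) = ((⟨0, p.1⟩, ⟨0, p.2⟩) : E) := by
    refine Prod.ext (Complex.ext ?_ ?_) (Complex.ext ?_ ?_) <;> simp [P]
  rw [this]

end Pool.Agent.Helper473.GH
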