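import Pool.Agent.Helper473.GH.Stmts

set_option autoImplicit false

open scoped Manifold ContDiff Topology Distributions
open MeasureTheory TopologicalSpace Set

namespace Pool.Agent.Helper473.GH

/-- The imaginary axis is not a neighbourhood of any point. -/
theorem geo_axis (z : ℂ) : ¬ {w : ℂ | w.re = 0} ∈ 𝓝 z := by
  intro h
  obtain ⟨ε, hε, hb⟩ := Metric.mem_nhds_iff.1 h
  have h1 : z + ((ε / 2 : ℝ) : ℂ) ∈ Metric.ball z ε := by
    rw [Metric.mem_ball, dist_eq_norm]
    simp only [add_sub_cancel_left, Complex.norm_real, Real.norm_eq_abs]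
    rw [abs_of_pos (by linarith)]
    linarith
  have h2 := hb h1
  have h3 := hb (Metric.mem_ball_self hε)
  simp only [mem_ofPred_eq, Complex.add_re, Complex.ofReal_re] at h2 h3
  linarith

/-- The closed right half plane is not a neighbourhood of a point on its boundary. -/
theorem geo_half (z : ℂ) (hz : z.re = 0) : ¬ {w : ℂ | 0 ≤ w.re} ∈ 𝓝 z := by
  intro h
  obtain ⟨ε, hε, hb⟩ := Metric.mem_nhds_iff.1 h
  have h1 : z - ((ε / 2 : ℝ) : ℂ) ∈ Metric.ball z ε := by
    rw [Metric.mem_ball, dist_eq_norm]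
    simp only [sub_sub_cancel_left, norm_neg, Complex.norm_real, Real.norm_eq_abs]
    rw [abs_of_pos (by linarith)]
    linarith
  have h2 := hb h1
  simp only [mem_ofPred_eq, Complex.sub_re, Complex.ofReal_re] at h2
  linarith

theorem geo_half' (z : ℂ) (hz : z.re = 0) : ¬ {w : ℂ | w.re ≤ 0} ∈ 𝓝 z := by
  intro h
  obtain ⟨ε, hε, hb⟩ := Metric.mem_nhds_iff.1 h
  have h1 : z + ((ε / 2 : ℝ) : ℂ) ∈ Metric.ball z ε := by
    rw [Metric.mem_ball, dist_eq_norm]
    simp only [add_sub_cancel_left, Complex.norm_real, Real.norm_eq_abs]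
    rw [abs_of_pos (by linarith)]
    linarith
  have h2 := hb h1
  simp only [mem_ofPred_eq, Complex.add_re, Complex.ofReal_re] at h2
  linarith

section

variable {S : Type} [TopologicalSpace S] [ChartedSpace ℂ S] [T2Space S]
  [ConnectedSpace S] [IsManifold 𝓘(ℂ) 1 S]

/-- A holomorphic function with vanishing real part near a point is constant. -/
theorem geo_const (hOM : S_OM) {g : S → ℂ} (hg : MDifferentiable 𝓘(ℂ) 𝓘(ℂ) g) (s0 : S)
    (h0 : ∀ᶠ s in 𝓝 s0, (g s).re = 0) : ∃ c, ∀ s, g s = c := by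
  rcases hOM S g hg with h | h
  · exact absurd (h s0 h0) (geo_axis _)
  · exact h

omit [ChartedSpace ℂ S] [T2Space S] [ConnectedSpace S] [IsManifold 𝓘(ℂ) 1 S] in
theorem geo_pos {g : S → ℂ} (h : ∀ s, 𝓝 (g s) ≤ Filter.map g (𝓝 s))
    (h0 : ∀ s, 0 ≤ (g s).re) (s : S) : (g s).re ≠ 0 := by
  intro hs
  refine geo_half _ hs (h s ?_)
  rw [Filter.mem_map]
  exact Filter.Eventually.of_forall h0

omit [ChartedSpace ℂ S] [T2Space S] [ConnectedSpace S] [IsManifold 𝓘(ℂ) 1 S] in
theorem geo_neg {g : S → ℂ} (h : ∀ s, 𝓝 (g s) ≤ Filter.map g (𝓝 s))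
    (h0 : ∀ s, (g s).re ≤ 0) (s : S) : (g s).re ≠ 0 := by
  intro hs
  refine geo_half' _ hs (h s ?_)
  rw [Filter.mem_map]
  exact Filter.Eventually.of_forall h0

/-- The point of the path. -/
noncomputable def geo_Phi (a b : ℝ) (c d z : ℂ) : E := ((a : ℂ) * z + c, (b : ℂ) * z + d)

theorem geo_Phi_cont (a b : ℝ) (c d : ℂ) : Continuous (geo_Phi a b c d) := by
  unfold geo_Phi
  fun_prop

theorem geo_norm_le (a : ℝ) (c z w : ℂ) (hc : c.re = 0) (him : w.im = z.im)
    (hre : |w.re| ≤ |z.re|) : ‖(a : ℂ) * w + c‖ ≤ ‖(a : ℂ) * z + c‖ := by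
  have h1 : ∀ v : ℂ, ‖(a : ℂ) * v + c‖ ^ 2 = (a * v.re) ^ 2 + (a * v.im + c.im) ^ 2 := by
    intro v
    rw [← Complex.normSq_eq_norm_sq, Complex.normSq_apply]
    simp only [Complex.add_re, Complex.mul_re, Complex.ofReal_re, Complex.ofReal_im, zero_mul,
      sub_zero, hc, add_zero, Complex.add_im, Complex.mul_im]
    ring
  have h2 : w.re ^ 2 ≤ z.re ^ 2 := sq_le_sq.2 hre
  have h3 : ‖(a : ℂ) * w + c‖ ^ 2 ≤ ‖(a : ℂ) * z + c‖ ^ 2 := by
    rw [h1, h1, him]
    have : (a * w.re) ^ 2 ≤ (a * z.re) ^ 2 := by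
      rw [mul_pow, mul_pow]
      exact mul_le_mul_of_nonneg_left h2 (sq_nonneg a)
    linarith
  exact (sq_le_sq₀ (norm_nonneg _) (norm_nonneg _)).1 h3

omit [ChartedSpace ℂ S] [T2Space S] [ConnectedSpace S] [IsManifold 𝓘(ℂ) 1 S] in
/-- The path lemma. -/
theorem geo_path {U : Opens E} {u : S → E} (mem : ∀ s, u s ∈ U)
    (hp : IsProperMap (fun s => (⟨u s, mem s⟩ : U))) {g : S → ℂ}
    (hg : ∀ s, 𝓝 (g s) ≤ Filter.map g (𝓝 s)) (hre : ∀ s, (g s).re ≠ 0) (a b : ℝ) (c d : ℂ)
    (hc : c.re = 0) (hd : d.re = 0) (hinj : Function.Injective (geo_Phi a b c d))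
    (hu : ∀ s, u s = geo_Phi a b c d (g s)) {R : ℝ} (hR : Metric.ball (0 : E) R ⊆ (U : Set E))
    (s1 : S) : u s1 ∉ Metric.ball (0 : E) R := by
  intro hs1
  set z : ℝ → ℂ := fun t => ⟨(1 - t) * (g s1).re, (g s1).im⟩ with hz
  have hzc : Continuous z := by
    have : z = fun t : ℝ => (((1 - t) * (g s1).re : ℝ) : ℂ) + ((g s1).im : ℂ) * Complex.I := by
      funext t
      apply Complex.ext <;> simp [hz]
    rw [this]
    fun_prop
  have hzb : ∀ t ∈ Icc (0 : ℝ) 1, geo_Phi a b c d (z t) ∈ Metric.ball (0 : E) R := by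
    intro t ht
    rw [mem_ball_zero_iff]
    rw [mem_ball_zero_iff, hu s1] at hs1
    refine lt_of_le_of_lt ?_ hs1
    have h1 : |(z t).re| ≤ |(g s1).re| := by
      simp only [hz, abs_mul]
      have : |1 - t| ≤ 1 := by
        rw [abs_le]
        constructor <;> linarith [ht.1, ht.2]
      nlinarith [abs_nonneg (g s1).re]
    have h2 := geo_norm_le a c (g s1) (z t) hc rfl h1
    have h3 := geo_norm_le b d (g s1) (z t) hd rfl h1
    simp only [geo_Phi, Prod.norm_def]
    exact max_le_max h2 h3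
  have hzU : ∀ t ∈ Icc (0 : ℝ) 1, geo_Phi a b c d (z t) ∈ U := fun t ht => hR (hzb t ht)
  set T : Set ℝ := {t | z t ∈ range g} with hT
  have hcl : IsClosed (T ∩ Icc (0 : ℝ) 1) := by
    have hr : IsClosed (range fun s => (⟨u s, mem s⟩ : U)) := hp.isClosedMap.isClosed_range
    have hψ : Continuous fun t : Icc (0 : ℝ) 1 =>
        (⟨geo_Phi a b c d (z t.1), hzU t.1 t.2⟩ : U) := by
      apply Continuous.subtype_mk
      exact (geo_Phi_cont a b c d).comp (hzc.comp continuous_subtype_val)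
    have h1 := hr.preimage hψ
    have h2 := (isClosed_Icc (a := (0 : ℝ)) (b := 1)).isClosedEmbedding_subtypeVal.isClosedMap _ h1
    convert h2 using 1
    ext t
    constructor
    · rintro ⟨⟨s, hs⟩, ht⟩
      refine ⟨⟨t, ht⟩, ?_, rfl⟩
      refine ⟨s, Subtype.ext ?_⟩
      change u s = geo_Phi a b c d (z t)
      rw [hu s, hs]
    · rintro ⟨⟨t', ht'⟩, ⟨s, hs⟩, rfl⟩
      refine ⟨⟨s, ?_⟩, ht'⟩
      apply hinj
      have h3 := congrArg Subtype.val hs
      change u s = geo_Phi a b c d (z t') at h3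
      rw [← hu s, h3]
  have h0 : (0 : ℝ) ∈ T := by
    refine ⟨s1, ?_⟩
    apply Complex.ext <;> simp [hz]
  have hopen : ∀ t ∈ T ∩ Ico (0 : ℝ) 1, T ∈ 𝓝[>] t := by
    rintro t ⟨⟨s, hs⟩, -⟩
    apply mem_nhdsWithin_of_mem_nhds
    have h1 : range g ∈ 𝓝 (z t) := by
      rw [← hs]
      refine hg s ?_
      rw [Filter.mem_map]
      exact Filter.Eventually.of_forall fun s' => mem_range_self s'
    exact hzc.continuousAt h1
  have h1 := hcl.Icc_subset_of_forall_mem_nhdsWithin h0 hopen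
  obtain ⟨s, hs⟩ := h1 (right_mem_Icc.2 zero_le_one)
  apply hre s
  rw [hs]
  simp [hz]

theorem geo_inj1 (b : ℝ) (c d : ℂ) : Function.Injective (geo_Phi 1 b c d) := by
  intro z w h
  have h1 := congrArg Prod.fst h
  simpa [geo_Phi] using h1

theorem geo_inj2 (a : ℝ) (c d : ℂ) : Function.Injective (geo_Phi a 1 c d) := by
  intro z w h
  have h1 := congrArg Prod.snd h
  simpa [geo_Phi] using h1

end

theorem t_GEO (hOM : S_OM) : S_GEO := by
  intro S _ _ _ _ _ U u hcu hFS R hR s1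
  have hmem := hcu.mem
  have hprop := hcu.proper
  have hcont : Continuous u := hcu.holo.continuous
  have hc1 : Continuous fun s => (u s).1 := hcont.fst
  have hc2 : Continuous fun s => (u s).2 := hcont.snd
  have hx : Continuous fun s => (u s).1.re := Complex.continuous_re.comp hc1
  have hy : Continuous fun s => (u s).2.re := Complex.continuous_re.comp hc2
  have hm1 : MDifferentiable 𝓘(ℂ) 𝓘(ℂ) fun s => (u s).1 :=
    (ContinuousLinearMap.fst ℂ ℂ ℂ).mdifferentiable.comp hcu.holo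
  have hm2 : MDifferentiable 𝓘(ℂ) 𝓘(ℂ) fun s => (u s).2 :=
    (ContinuousLinearMap.snd ℂ ℂ ℂ).mdifferentiable.comp hcu.holo
  have hm3 : MDifferentiable 𝓘(ℂ) 𝓘(ℂ) fun s => (u s).1 - (u s).2 :=
    (ContinuousLinearMap.fst ℂ ℂ ℂ - ContinuousLinearMap.snd ℂ ℂ ℂ).mdifferentiable.comp hcu.holo
  have hnc : ¬ ∃ c, ∀ s, u s = c := by
    rintro ⟨c, hc⟩
    obtain ⟨s, hs, -⟩ := hcu.somewhere_injective
    apply hs
    have : u = fun _ => c := funext hc
    rw [this]
    exact mfderiv_const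
  by_cases hA : ∃ s0, 0 < (u s0).1.re
  · obtain ⟨s0, hs0⟩ := hA
    have hev : ∀ᶠ s in 𝓝 s0, ((u s).1 - (u s).2).re = 0 := by
      filter_upwards [hx.continuousAt.eventually (lt_mem_nhds hs0)] with s hs
      rw [Complex.sub_re]
      rcases hFS s with h | h | h
      · rw [h.1, sub_self]
      · exact absurd h.2 (not_le.2 hs)
      · exact absurd h.1 hs.ne'
    obtain ⟨c, hc⟩ := geo_const hOM hm3 s0 hev
    have hcre : c.re = 0 := by
      rw [← hc s0]
      exact hev.self_of_nhds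
    have hxy : ∀ s, (u s).1.re = (u s).2.re := by
      intro s
      have := congrArg Complex.re (hc s)
      rw [Complex.sub_re, hcre] at this
      linarith
    have hx0 : ∀ s, 0 ≤ (u s).1.re := by
      intro s
      rcases hFS s with h | h | h
      · exact h.2
      · rw [hxy s, h.1]
      · rw [h.1]
    rcases hOM S _ hm1 with ho | ⟨c', hc'⟩
    · refine geo_path hmem hprop ho (geo_pos ho hx0) 1 1 0 (-c) rfl (by simp [hcre])
        (geo_inj1 _ _ _) ?_ hR s1
      intro s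
      have h1 := hc s
      apply Prod.ext
      · simp [geo_Phi]
      · simp only [geo_Phi, Complex.ofReal_one, one_mul]
        rw [← h1]
        ring
    · exfalso
      apply hnc
      refine ⟨(c', c' - c), fun s => Prod.ext (hc' s) ?_⟩
      have h1 := hc s
      have h2 := hc' s
      change (u s).2 = c' - c
      rw [← h1, ← h2]
      ring
  push Not at hA
  by_cases hB : ∃ s0, (u s0).1.re < 0
  · obtain ⟨s0, hs0⟩ := hB
    have hev : ∀ᶠ s in 𝓝 s0, ((u s).2).re = 0 := by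
      filter_upwards [hx.continuousAt.eventually (gt_mem_nhds hs0)] with s hs
      rcases hFS s with h | h | h
      · exact absurd h.2 (not_le.2 hs)
      · exact h.1
      · exact absurd h.1 hs.ne
    obtain ⟨c, hc⟩ := geo_const hOM hm2 s0 hev
    have hcre : c.re = 0 := by
      rw [← hc s0]
      exact hev.self_of_nhds
    rcases hOM S _ hm1 with ho | ⟨c', hc'⟩
    · refine geo_path hmem hprop ho (geo_neg ho hA) 1 0 0 c rfl hcre
        (geo_inj1 _ _ _) ?_ hR s1
      intro s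
      apply Prod.ext
      · simp [geo_Phi]
      · simp only [geo_Phi, Complex.ofReal_zero, zero_mul, zero_add]
        exact hc s
    · exfalso
      exact hnc ⟨(c', c), fun s => Prod.ext (hc' s) (hc s)⟩
  push Not at hB
  have hx0 : ∀ s, (u s).1.re = 0 := fun s => le_antisymm (hA s) (hB s)
  obtain ⟨c, hc⟩ := geo_const hOM hm1 s1 (Filter.Eventually.of_forall hx0)
  have hcre : c.re = 0 := by
    rw [← hc s1]
    exact hx0 s1
  have hy0 : ∀ s, (u s).2.re ≤ 0 := by
    intro s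
    rcases hFS s with h | h | h
    · rw [← h.1, hx0 s]
    · rw [h.1]
    · exact h.2
  rcases hOM S _ hm2 with ho | ⟨c', hc'⟩
  · refine geo_path hmem hprop ho (geo_neg ho hy0) 0 1 c 0 hcre rfl
      (geo_inj2 _ _ _) ?_ hR s1
    intro s
    apply Prod.ext
    · simp only [geo_Phi, Complex.ofReal_zero, zero_mul, zero_add]
      exact hc s
    · simp [geo_Phi]
  · exfalso
    exact hnc ⟨(c, c'), fun s => Prod.ext (hc s) (hc' s)⟩

end Pool.Agent.Helper473.GH
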