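import Pool.Agent.Helper473.GH.Stmts

set_option autoImplicit false

open scoped Manifold ContDiff Topology Distributions
open MeasureTheory TopologicalSpace Set

namespace Pool.Agent.Helper473.GH

section OM

variable {S : Type} [TopologicalSpace S] [ChartedSpace ℂ S] [IsManifold 𝓘(ℂ) 1 S]

/-- holomorphic functions in charts -/
theorem om_analytic {f : S → ℂ} (hf : MDifferentiable 𝓘(ℂ) 𝓘(ℂ) f) (s : S) :
    AnalyticOnNhd ℂ (f ∘ (chartAt ℂ s).symm) (chartAt ℂ s).target := by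
  have h1 : MDifferentiableOn 𝓘(ℂ) 𝓘(ℂ) (chartAt ℂ s).symm (chartAt ℂ s).target :=
    mdifferentiableOn_atlas_symm (chart_mem_atlas ℂ s)
  have h2 : MDifferentiableOn 𝓘(ℂ) 𝓘(ℂ) (f ∘ (chartAt ℂ s).symm) (chartAt ℂ s).target :=
    hf.comp_mdifferentiableOn h1
  rw [mdifferentiableOn_iff_differentiableOn] at h2
  exact h2.analyticOnNhd (chartAt ℂ s).open_target

omit [ChartedSpace ℂ S] [IsManifold 𝓘(ℂ) 1 S] in
theorem om_open (f : S → ℂ) : IsOpen {s | ∀ᶠ t in 𝓝 s, f t = f s} := by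
  rw [isOpen_iff_mem_nhds]
  intro s hs
  have hs' : ∀ᶠ t in 𝓝 s, f t = f s := hs
  have h1 := eventually_eventually_nhds.2 hs'
  filter_upwards [h1, hs'] with t ht1 ht2
  show ∀ᶠ r in 𝓝 t, f r = f t
  filter_upwards [ht1] with r hr
  rw [hr, ht2]

theorem om_closed {f : S → ℂ} (hf : MDifferentiable 𝓘(ℂ) 𝓘(ℂ) f) :
    IsClosed {s | ∀ᶠ t in 𝓝 s, f t = f s} := by
  rw [← closure_subset_iff_isClosed]
  intro s hs
  set e := chartAt ℂ s with he
  have hse : s ∈ e.source := mem_chart_source ℂ s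
  obtain ⟨ρ, hρ, hB⟩ := Metric.isOpen_iff.1 e.open_target (e s) (e.map_source hse)
  have hW : e.source ∩ e ⁻¹' Metric.ball (e s) ρ ∈ 𝓝 s :=
    Filter.inter_mem (e.open_source.mem_nhds hse)
      ((e.continuousAt hse).preimage_mem_nhds (Metric.ball_mem_nhds _ hρ))
  obtain ⟨t, ⟨ht1, ht2⟩, ht3⟩ := mem_closure_iff_nhds.1 hs _ hW
  have ht3' : ∀ᶠ r in 𝓝 t, f r = f t := ht3
  have hg : AnalyticOnNhd ℂ (f ∘ e.symm) (Metric.ball (e s) ρ) := (om_analytic hf s).mono hB
  have hev : (f ∘ e.symm) =ᶠ[𝓝 (e t)] fun _ => f t := by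
    have h1 : Filter.Tendsto e.symm (𝓝 (e t)) (𝓝 t) := by
      have h2 := e.continuousAt_symm (e.map_source ht1)
      rw [ContinuousAt, e.left_inv ht1] at h2
      exact h2
    exact h1.eventually ht3'
  have heq := hg.eqOn_of_preconnected_of_eventuallyEq (g := fun _ => f t)
    (fun z _ => analyticAt_const) (convex_ball (e s) ρ).isPreconnected ht2 hev
  have h3 : ∀ r ∈ e.source ∩ e ⁻¹' Metric.ball (e s) ρ, f r = f t := by
    intro r hr
    have h4 := heq hr.2
    simp only [Function.comp, e.left_inv hr.1] at h4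
    exact h4
  show ∀ᶠ r in 𝓝 s, f r = f s
  filter_upwards [hW] with r hr
  rw [h3 r hr, h3 s ⟨hse, Metric.mem_ball_self hρ⟩]

end OM

theorem t_OM : S_OM := by
  intro S _ _ _ _ _ f hf
  have hclopen : IsClopen {s | ∀ᶠ t in 𝓝 s, f t = f s} := ⟨om_closed hf, om_open f⟩
  rcases isClopen_iff.1 hclopen with h | h
  · left
    intro s
    have hse : s ∈ (chartAt ℂ s).source := mem_chart_source ℂ s
    have hs : ¬ ∀ᶠ t in 𝓝 s, f t = f s := by
      intro h1
      have h2 : s ∈ {s | ∀ᶠ t in 𝓝 s, f t = f s} := h1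
      rw [h] at h2
      exact h2
    have hmap : Filter.map (f ∘ (chartAt ℂ s).symm) (𝓝 (chartAt ℂ s s)) = Filter.map f (𝓝 s) := by
      rw [← Filter.map_map, (chartAt ℂ s).symm_map_nhds_eq hse]
    have hfs : (f ∘ (chartAt ℂ s).symm) (chartAt ℂ s s) = f s := by
      simp only [Function.comp, (chartAt ℂ s).left_inv hse]
    rcases (om_analytic hf s _ ((chartAt ℂ s).map_source hse)).eventually_constant_or_nhds_le_map_nhds
      with h1 | h1
    · exfalso
      apply hs
      rw [hfs] at h1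
      have h2 : ∀ᶠ z in Filter.map (chartAt ℂ s).symm (𝓝 (chartAt ℂ s s)), f z = f s := h1
      rwa [(chartAt ℂ s).symm_map_nhds_eq hse] at h2
    · rwa [hfs, hmap] at h1
  · right
    have hlc : IsLocallyConstant f := by
      rw [IsLocallyConstant.iff_eventually_eq]
      intro s
      have h2 : s ∈ {s | ∀ᶠ t in 𝓝 s, f t = f s} := by
        rw [h]
        exact mem_univ s
      exact h2
    exact ⟨f (Classical.arbitrary S), fun s => hlc.apply_eq_of_preconnectedSpace s _⟩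

end Pool.Agent.Helper473.GH
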