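import Pool.Agent.Helper473.GH.Stmts

set_option autoImplicit false

open scoped Manifold ContDiff Topology Distributions
open MeasureTheory TopologicalSpace Set

namespace Pool.Agent.Helper473.GH

lemma pos_om (v : E) : om ![v, Complex.I • v] = Complex.normSq v.1 + Complex.normSq v.2 := by
  show v.1.re * (Complex.I • v).1.im - v.1.im * (Complex.I • v).1.re
    + (v.2.re * (Complex.I • v).2.im - v.2.im * (Complex.I • v).2.re) = _
  simp [Complex.normSq_apply]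

section

variable {S : Type} [TopologicalSpace S] [ChartedSpace ℂ S] [IsManifold 𝓘(ℂ) 1 S]

lemma pos_diff {e : OpenPartialHomeomorph S ℂ} (he : e ∈ atlas ℂ S) {u : S → E}
    (hu : MDifferentiable 𝓘(ℂ) 𝓘(ℂ, E) u) {z : ℂ} (hz : z ∈ e.target) :
    DifferentiableAt ℂ (u ∘ e.symm) z := by
  have h1 : MDifferentiableAt 𝓘(ℂ) 𝓘(ℂ) e.symm z := mdifferentiableAt_atlas_symm he hz
  have h2 : MDifferentiableAt 𝓘(ℂ) 𝓘(ℂ, E) (u ∘ e.symm) z := (hu _).comp z h1
  exact h2.differentiableAt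

lemma pos_dens {e : OpenPartialHomeomorph S ℂ} (he : e ∈ atlas ℂ S) {u : S → E}
    (hu : MDifferentiable 𝓘(ℂ) 𝓘(ℂ, E) u) {z : ℂ} (hz : z ∈ e.target) (φ : E → ℝ) :
    dens e u (fun x => φ x • om) z = φ (u (e.symm z)) *
      (Complex.normSq (fderiv ℂ (u ∘ e.symm) z 1).1 +
        Complex.normSq (fderiv ℂ (u ∘ e.symm) z 1).2) := by
  have hd := pos_diff he hu hz
  have h1 : fderiv ℝ (u ∘ e.symm) z = (fderiv ℂ (u ∘ e.symm) z).restrictScalars ℝ :=
    hd.fderiv_restrictScalars ℝ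
  have h2 : fderiv ℂ (u ∘ e.symm) z Complex.I = Complex.I • fderiv ℂ (u ∘ e.symm) z 1 := by
    rw [← map_smul]; simp
  unfold dens
  rw [h1]
  simp only [ContinuousLinearMap.coe_restrictScalars', h2]
  rw [← pos_om]
  rfl

lemma pos_nonneg {e : OpenPartialHomeomorph S ℂ} (he : e ∈ atlas ℂ S) {u : S → E}
    (hu : MDifferentiable 𝓘(ℂ) 𝓘(ℂ, E) u) {z : ℂ} (hz : z ∈ e.target) (φ : E → ℝ)
    (hφ : ∀ x, 0 ≤ φ x) : 0 ≤ dens e u (fun x => φ x • om) z := by
  rw [pos_dens he hu hz]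
  exact mul_nonneg (hφ _) (add_nonneg (Complex.normSq_nonneg _) (Complex.normSq_nonneg _))

lemma pos_ne {e : OpenPartialHomeomorph S ℂ} (he : e ∈ atlas ℂ S) {u : S → E}
    (hu : MDifferentiable 𝓘(ℂ) 𝓘(ℂ, E) u) {z : ℂ} (hz : z ∈ e.target) (φ : E → ℝ)
    (hφ : φ (u (e.symm z)) ≠ 0) (hd : fderiv ℂ (u ∘ e.symm) z ≠ 0) :
    dens e u (fun x => φ x • om) z ≠ 0 := by
  rw [pos_dens he hu hz]
  intro h
  rcases mul_eq_zero.1 h with h | h
  · exact hφ h
  · have h1 := Complex.normSq_nonneg (fderiv ℂ (u ∘ e.symm) z 1).1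
    have h2 := Complex.normSq_nonneg (fderiv ℂ (u ∘ e.symm) z 1).2
    have h3 : Complex.normSq (fderiv ℂ (u ∘ e.symm) z 1).1 = 0 := by linarith
    have h4 : Complex.normSq (fderiv ℂ (u ∘ e.symm) z 1).2 = 0 := by linarith
    rw [Complex.normSq_eq_zero] at h3 h4
    apply hd
    ext1
    exact Prod.ext h3 h4

/-- The differential of `u` vanishes if and only if it vanishes in the coordinate `e`. -/
lemma pos_mf {e : OpenPartialHomeomorph S ℂ} (he : e ∈ atlas ℂ S) {u : S → E}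
    (hu : MDifferentiable 𝓘(ℂ) 𝓘(ℂ, E) u) {s : S} (hs : s ∈ e.source) :
    mfderiv 𝓘(ℂ) 𝓘(ℂ, E) u s = 0 ↔ fderiv ℂ (u ∘ e.symm) (e s) = 0 := by
  have hz : e s ∈ e.target := e.map_source hs
  have h1 : MDifferentiableAt 𝓘(ℂ) 𝓘(ℂ) e.symm (e s) := mdifferentiableAt_atlas_symm he hz
  have h0 : MDifferentiableAt 𝓘(ℂ) 𝓘(ℂ) e s := mdifferentiableAt_atlas he hs
  have hss : e.symm (e s) = s := e.left_inv hs
  have hd := pos_diff he hu hz
  constructor
  · intro h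
    have h2 : mfderiv 𝓘(ℂ) 𝓘(ℂ, E) (u ∘ e.symm) (e s) =
        (mfderiv 𝓘(ℂ) 𝓘(ℂ, E) u (e.symm (e s))).comp (mfderiv 𝓘(ℂ) 𝓘(ℂ) e.symm (e s)) :=
      mfderiv_comp (e s) (hu _) h1
    rw [hss] at h2
    rw [← mfderiv_eq_fderiv, h2, h]
    exact ContinuousLinearMap.zero_comp _
  · intro h
    have h3 : mfderiv 𝓘(ℂ) 𝓘(ℂ, E) ((u ∘ e.symm) ∘ e) s =
        (mfderiv 𝓘(ℂ) 𝓘(ℂ, E) (u ∘ e.symm) (e s)).comp (mfderiv 𝓘(ℂ) 𝓘(ℂ) e s) :=
      mfderiv_comp s hd.mdifferentiableAt h0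
    have h4 : (u ∘ e.symm) ∘ e =ᶠ[𝓝 s] u := by
      filter_upwards [e.open_source.mem_nhds hs] with x hx
      simp [e.left_inv hx]
    rw [← h4.mfderiv_eq, h3, mfderiv_eq_fderiv, h]
    exact ContinuousLinearMap.zero_comp _

end

theorem t_POS (hOM : S_OM) : S_POS := by
  intro S _ _ _ _ _ U u hu φ hφc hφ I hI
  obtain ⟨e, A, he, hA, hdisj, hcov, hmeas, hint, hsum⟩ := hI
  have hholo := hu.holo
  have htar : ∀ k, e k '' A k ⊆ (e k).target := by
    rintro k _ ⟨s, hs, rfl⟩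
    exact (e k).map_source (hA k hs)
  have hnn : ∀ k, 0 ≤ ∫ z in e k '' A k, dens (e k) u (fun x => φ x • om) z := fun k =>
    setIntegral_nonneg (hmeas k) fun z hz => pos_nonneg (he k) hholo (htar k hz) φ hφ
  refine ⟨hsum.nonneg hnn, ?_⟩
  intro hI0
  subst hI0
  have hz0 : ∀ k, ∫ z in e k '' A k, dens (e k) u (fun x => φ x • om) z = 0 := by
    intro k
    exact congrFun ((hasSum_zero_iff_of_nonneg hnn).1 hsum) k
  have hnull : ∀ k, volume {z ∈ e k '' A k | dens (e k) u (fun x => φ x • om) z ≠ 0} = 0 := by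
    intro k
    have h1 : 0 ≤ᵐ[volume.restrict (e k '' A k)] dens (e k) u (fun x => φ x • om) := by
      rw [Filter.EventuallyLE, ae_restrict_iff' (hmeas k)]
      exact Filter.Eventually.of_forall fun z hz => pos_nonneg (he k) hholo (htar k hz) φ hφ
    have h2 := (setIntegral_eq_zero_iff_of_nonneg_ae h1 (hint k)).1 (hz0 k)
    rw [Filter.EventuallyEq, ae_restrict_iff' (hmeas k)] at h2
    rw [ae_iff] at h2
    refine measure_mono_null ?_ h2
    rintro z ⟨hz1, hz2⟩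
    simp only [mem_ofPred_eq]
    intro h
    exact hz2 (h hz1)
  by_contra hcon
  push Not at hcon
  obtain ⟨s₀, hs₀⟩ := hcon
  set e₀ := chartAt ℂ s₀ with he₀
  have hat : e₀ ∈ atlas ℂ S := chart_mem_atlas ℂ s₀
  have hsrc : s₀ ∈ e₀.source := mem_chart_source ℂ s₀
  have hcu : Continuous u := hholo.continuous
  -- the open set where the function is positive
  have hWo : IsOpen (e₀.target ∩ e₀.symm ⁻¹' {s | φ (u s) ≠ 0}) := by
    apply e₀.isOpen_inter_preimage_symm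
    exact isOpen_ne_fun (hφc.comp hcu) continuous_const
  set W := e₀.target ∩ e₀.symm ⁻¹' {s | φ (u s) ≠ 0} with hW
  have hdg : DifferentiableOn ℂ (u ∘ e₀.symm) e₀.target := fun z hz =>
    (pos_diff hat hholo hz).differentiableWithinAt
  have hcd : ContinuousOn (fderiv ℂ (u ∘ e₀.symm)) e₀.target :=
    (hdg.contDiffOn (n := 1) e₀.open_target).continuousOn_fderiv_of_isOpen e₀.open_target le_rfl
  have hDo : IsOpen (W ∩ {z | fderiv ℂ (u ∘ e₀.symm) z ≠ 0}) := by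
    have := (hcd.mono (inter_subset_left (t := e₀.symm ⁻¹' {s | φ (u s) ≠ 0}))).isOpen_inter_preimage
      hWo (isOpen_compl_singleton (x := (0 : ℂ →L[ℂ] E)))
    exact this
  have hD0 : volume (W ∩ {z | fderiv ℂ (u ∘ e₀.symm) z ≠ 0}) = 0 := by
    have hsub : W ∩ {z | fderiv ℂ (u ∘ e₀.symm) z ≠ 0} ⊆ ⋃ k, (e₀ ∘ (e k).symm) ''
        ({z ∈ e k '' A k | dens (e k) u (fun x => φ x • om) z ≠ 0} ∩
          {z | (e k).symm z ∈ e₀.source}) := by
      rintro z ⟨⟨hz1, hz2⟩, hz3⟩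
      have hmem : e₀.symm z ∈ ⋃ k, A k := by rw [hcov]; trivial
      obtain ⟨k, hk⟩ := mem_iUnion.1 hmem
      have hk' := hA k hk
      have hinv : (e k).symm (e k (e₀.symm z)) = e₀.symm z := (e k).left_inv hk'
      refine mem_iUnion.2 ⟨k, e k (e₀.symm z), ⟨⟨⟨_, hk, rfl⟩, ?_⟩, ?_⟩, ?_⟩
      · refine pos_ne (he k) hholo ((e k).map_source hk') φ ?_ ?_
        · rw [hinv]; exact hz2
        · intro h
          rw [← pos_mf (he k) hholo hk'] at h
          rw [pos_mf hat hholo (e₀.map_target hz1), e₀.right_inv hz1] at h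
          exact hz3 h
      · show (e k).symm (e k (e₀.symm z)) ∈ e₀.source
        rw [hinv]; exact e₀.map_target hz1
      · show e₀ ((e k).symm (e k (e₀.symm z))) = z
        rw [hinv, e₀.right_inv hz1]
    refine measure_mono_null hsub (measure_iUnion_null fun k => ?_)
    apply addHaar_image_eq_zero_of_differentiableOn_of_addHaar_eq_zero
    · rintro w ⟨⟨hw1, _⟩, hw2⟩
      have hwt : w ∈ (e k).target := htar k hw1
      have h1 : MDifferentiableAt 𝓘(ℂ) 𝓘(ℂ) (e k).symm w := mdifferentiableAt_atlas_symm (he k) hwt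
      have h2 : MDifferentiableAt 𝓘(ℂ) 𝓘(ℂ) e₀ ((e k).symm w) := mdifferentiableAt_atlas hat hw2
      have h3 : MDifferentiableAt 𝓘(ℂ) 𝓘(ℂ) (e₀ ∘ (e k).symm) w := h2.comp w h1
      exact (h3.differentiableAt.restrictScalars ℝ).differentiableWithinAt
    · exact measure_mono_null inter_subset_left (hnull k)
  have hDe : W ∩ {z | fderiv ℂ (u ∘ e₀.symm) z ≠ 0} = ∅ := (hDo.measure_eq_zero_iff (μ := (volume : Measure ℂ))).1 hD0
  have hz₀ : e₀ s₀ ∈ W := ⟨e₀.map_source hsrc, by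
    show φ (u (e₀.symm (e₀ s₀))) ≠ 0
    rw [e₀.left_inv hsrc]; exact hs₀⟩
  obtain ⟨r, hr, hball⟩ := Metric.isOpen_iff.1 hWo _ hz₀
  have hconst : ∀ z ∈ Metric.ball (e₀ s₀) r, (u ∘ e₀.symm) z = u s₀ := by
    intro z hz
    have h1 : ∀ x ∈ Metric.ball (e₀ s₀) r, fderivWithin ℂ (u ∘ e₀.symm) (Metric.ball (e₀ s₀) r) x = 0 := by
      intro x hx
      rw [fderivWithin_of_isOpen Metric.isOpen_ball hx]
      by_contra hne
      have : x ∈ W ∩ {z | fderiv ℂ (u ∘ e₀.symm) z ≠ 0} := ⟨hball hx, hne⟩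
      rw [hDe] at this
      exact this
    have h2 : DifferentiableOn ℂ (u ∘ e₀.symm) (Metric.ball (e₀ s₀) r) :=
      hdg.mono fun x hx => (hball hx).1
    have h3 := (convex_ball (e₀ s₀) r).is_const_of_fderivWithin_eq_zero h2 h1 hz
      (Metric.mem_ball_self hr)
    rw [h3]
    show u (e₀.symm (e₀ s₀)) = u s₀
    rw [e₀.left_inv hsrc]
  have hev : ∀ᶠ s in 𝓝 s₀, u s = u s₀ := by
    have h1 : ∀ᶠ s in 𝓝 s₀, e₀ s ∈ Metric.ball (e₀ s₀) r :=
      (e₀.continuousAt hsrc).eventually (Metric.ball_mem_nhds _ hr)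
    filter_upwards [h1, e₀.open_source.mem_nhds hsrc] with s hs1 hs2
    have := hconst _ hs1
    simpa [e₀.left_inv hs2] using this
  -- the components of `u` are constant
  have key : ∀ f : E →L[ℂ] ℂ, ∃ c, ∀ s, f (u s) = c := by
    intro f
    have hf : MDifferentiable 𝓘(ℂ) 𝓘(ℂ) (fun s => f (u s)) := by
      have h1 : MDifferentiable 𝓘(ℂ, E) 𝓘(ℂ) f := f.differentiable.mdifferentiable
      exact h1.comp hholo
    rcases hOM S (fun s => f (u s)) hf with h | h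
    · exfalso
      have h1 := h s₀
      have h2 : {f (u s₀)} ∈ Filter.map (fun s => f (u s)) (𝓝 s₀) := by
        rw [Filter.mem_map]
        filter_upwards [hev] with s hs
        simp [hs]
      have h3 : {f (u s₀)} ∈ 𝓝 (f (u s₀)) := h1 h2
      have h4 : IsOpen ({f (u s₀)} : Set ℂ) := isOpen_singleton_iff_nhds_eq_pure _ |>.2
        (le_antisymm (Filter.le_pure_iff.2 h3) (pure_le_nhds _))
      exact not_isOpen_singleton _ h4
    · exact h
  obtain ⟨c1, hc1⟩ := key (ContinuousLinearMap.fst ℂ ℂ ℂ)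
  obtain ⟨c2, hc2⟩ := key (ContinuousLinearMap.snd ℂ ℂ ℂ)
  have huc : u = fun _ => ((c1, c2) : E) := by
    funext s
    exact Prod.ext (hc1 s) (hc2 s)
  obtain ⟨s₁, hs₁, _⟩ := hu.somewhere_injective
  apply hs₁
  rw [huc]
  exact mfderiv_const

end Pool.Agent.Helper473.GH
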