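import Pool.Agent.Helper473.GH.Stmts

set_option autoImplicit false

open scoped Manifold ContDiff Topology Distributions
open MeasureTheory TopologicalSpace Set

namespace Pool.Agent.Helper473.GH

/-- `P a` as a linear map. -/
def ta_lin (a : ℝ × ℝ) : (ℝ × ℝ × ℝ) →ₗ[ℝ] E where
  toFun q := P a q
  map_add' x y := by
    apply Prod.ext <;> apply Complex.ext <;> simp [P] <;> ring
  map_smul' c x := by
    apply Prod.ext <;> apply Complex.ext <;> simp [P] <;> ring

theorem ta_ker (a : ℝ × ℝ) (ha : a ≠ 0) : LinearMap.ker (ta_lin a) = ⊥ := by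
  rw [LinearMap.ker_eq_bot']
  intro q hq
  have h : P a q = 0 := hq
  have h1 : a.1 * q.1 = 0 := congrArg (fun p : E => p.1.re) h
  have h2 : a.2 * q.1 = 0 := congrArg (fun p : E => p.2.re) h
  have h3 : q.2.1 = 0 := congrArg (fun p : E => p.1.im) h
  have h4 : q.2.2 = 0 := congrArg (fun p : E => p.2.im) h
  have h0 : q.1 = 0 := by
    by_contra h5
    have e1 : a.1 = 0 := (mul_eq_zero.1 h1).resolve_right h5
    have e2 : a.2 = 0 := (mul_eq_zero.1 h2).resolve_right h5
    exact ha (Prod.ext e1 e2)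
  exact Prod.ext h0 (Prod.ext h3 h4)

theorem ta_closed (a : ℝ × ℝ) (ha : a ≠ 0) : Topology.IsClosedEmbedding (P a) :=
  LinearMap.isClosedEmbedding_of_injective (f := ta_lin a) (ta_ker a ha)

theorem t_TA : S_TA := by
  intro a ha
  have hcl := ta_closed a ha
  have hP : Continuous (P a) := hcl.continuous
  let μ : Measure E := (volume.restrict (Ioi (0 : ℝ) ×ˢ (univ : Set (ℝ × ℝ)))).map (P a)
  have hμ : IsFiniteMeasureOnCompacts μ := by
    constructor
    intro K hK
    change ((volume.restrict (Ioi (0 : ℝ) ×ˢ (univ : Set (ℝ × ℝ)))).map (P a)) K < ⊤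
    rw [Measure.map_apply hP.measurable hK.measurableSet]
    exact (hcl.isCompact_preimage hK).measure_lt_top
  let B : Alt 2 →L[ℝ] ℝ →L[ℝ] ℝ := (ContinuousLinearMap.mul ℝ ℝ).comp (wedge (vec a) (J (vec a)))
  have hloc : LocallyIntegrableOn (fun _ : E => (1 : ℝ)) ((⊤ : Opens E) : Set E) μ :=
    (locallyIntegrable_const (1 : ℝ)).locallyIntegrableOn _
  let T0 : 𝓓((⊤ : Opens E), Alt 2) →L[ℝ] ℝ :=
    TestFunction.integralAgainstBilinCLM (𝕜 := ℝ) B μ (fun _ : E => (1 : ℝ))
  refine ⟨(ContinuousLinearMap.toPointwiseConvergenceCLM ℝ (RingHom.id ℝ) _ _ T0), fun α => ?_⟩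
  change T0 α = TV a α
  have h1 : T0 α = ∫ x, B (α x) (1 : ℝ) ∂μ :=
    TestFunction.integralAgainstBilinCLM_eq_integral (𝕜 := ℝ) hloc
  rw [h1]
  have h2 : ∀ x, B (α x) (1 : ℝ) = α x ![vec a, J (vec a)] := by
    intro x
    change (α x ![vec a, J (vec a)]) * 1 = _
    rw [mul_one]
  simp_rw [h2]
  unfold TV
  have hc : Continuous (fun x : E => α x ![vec a, J (vec a)]) := by
    have h3 : Continuous (fun x : E => wedge (vec a) (J (vec a)) (α x)) :=
      (wedge (vec a) (J (vec a))).continuous.comp α.continuous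
    exact h3
  exact integral_map hP.aemeasurable hc.aestronglyMeasurable

end Pool.Agent.Helper473.GH
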