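import Pool.Agent.Helper473.GH.Pres
import Pool.Agent.Helper473.GH.Fin
import Pool.Agent.Helper473.GH.T_TA
import Pool.Agent.Helper473.GH.T_CONES
import Pool.Agent.Helper473.GH.T_CYC
import Pool.Agent.Helper473.GH.T_OM
import Pool.Agent.Helper473.GH.T_GEO
import Pool.Agent.Helper473.GH.T_POS

set_option autoImplicit false

open scoped Manifold ContDiff Topology Distributions
open MeasureTheory TopologicalSpace Set

namespace Pool.Agent.Helper473.GHB

open Pool.Agent.Helper473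

theorem coneJ_eq : (GHP.coneJ : Set (GH.Alt 2 →L[ℝ] ℝ)) = GH.coneJ := by
  have h : ({w : GHP.Bivector | ∃ v : GHP.E, ∀ β : GHP.Alt 2, w.pair β = β.eval ![v, GHP.J v]} :
      Set (GH.Alt 2 →L[ℝ] ℝ)) = {w | ∃ v : GH.E, w = GH.wedge v (GH.J v)} := by
    ext w
    constructor
    · rintro ⟨v, hv⟩
      exact ⟨v, ContinuousLinearMap.ext fun β => hv β⟩
    · rintro ⟨v, rfl⟩
      exact ⟨v, fun β => rfl⟩
  unfold GHP.coneJ GH.coneJ GHP.closedCone GH.closedCone
  rw [← h]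
  rfl

theorem ccurrent_eq : (GHP.CCurrent : Set (GH.Current ⊤ 2)) = GH.CCurrent := by
  have h : ({T : GHP.Current GHP.M 2 | ∃ y, ∃ w ∈ GHP.coneJ, ∀ α : GHP.Forms GHP.M 2,
      T.eval α = w.pair (α y)} : Set (GH.Current ⊤ 2)) =
      {T | ∃ y, ∃ w ∈ GH.coneJ, T = GH.dirac y w} := by
    ext T
    constructor
    · rintro ⟨y, w, hw, hT⟩
      refine ⟨y, w, ?_, ContinuousLinearMap.ext fun β => hT β⟩
      rw [← coneJ_eq]; exact hw
    · rintro ⟨y, w, hw, rfl⟩
      refine ⟨y, w, ?_, fun β => rfl⟩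
      rw [← coneJ_eq] at hw; exact hw
  unfold GHP.CCurrent GH.CCurrent GHP.closedCone GH.closedCone
  rw [← h]
  rfl

theorem isCurve {S : Type} [TopologicalSpace S] [ChartedSpace ℂ S] [T2Space S] [ConnectedSpace S]
    [IsManifold 𝓘(ℂ) 1 S] {U : Opens GHP.E} {u : S → GHP.E} (h : GHP.IsCurve U u) :
    GH.IsCurve U u := by
  have hdiff : ∀ s, DifferentiableAt ℂ (u ∘ (chartAt ℂ s).symm) (chartAt ℂ s s) := fun s =>
    (h.holo (chartAt ℂ s) (chart_mem_atlas ℂ s)).differentiableAt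
      ((chartAt ℂ s).open_target.mem_nhds ((chartAt ℂ s).map_source (mem_chart_source ℂ s)))
  have hcont : Continuous u := by
    exact (continuous_subtype_val.comp h.proper.continuous)
  have hholo : MDifferentiable 𝓘(ℂ) 𝓘(ℂ, GH.E) u := by
    intro s
    rw [mdifferentiableAt_iff]
    refine ⟨hcont.continuousAt, ?_⟩
    have := hdiff s
    simp only [writtenInExtChartAt, extChartAt, mfld_simps]
    exact this.differentiableWithinAt
  refine ⟨h.mem, h.proper, ?_, hholo⟩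
  obtain ⟨s, hs, hs'⟩ := h.somewhere_injective
  refine ⟨s, ?_, hs'⟩
  intro h0
  apply hs
  have := (hholo s).mfderiv
  rw [this] at h0
  simp only [writtenInExtChartAt, extChartAt, mfld_simps, fderivWithin_univ] at h0
  exact h0


theorem isIntegral {S : Type} [TopologicalSpace S] [ChartedSpace ℂ S] {u : S → GHP.E}
    {α : GHP.E → GHP.Alt 2} {I : ℝ} (h : GHP.IsIntegral u α I) :
    GH.IsIntegral u (α : GH.E → GH.Alt 2) I := by
  obtain ⟨e, A, h1, h2, h3, h4, h5, h6, h7⟩ := h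
  exact ⟨e, A, h1, h2, fun k l hkl => h3 k l hkl, h4, h5, h6, h7⟩

theorem pcurve {U : Opens GHP.E} {c : GHP.Current U 2} (h : c ∈ GHP.PCurve U) :
    (c : GH.Current U 2) ∈ GH.PCurve U := by
  obtain ⟨S, i1, i2, i3, i4, i5, u, hu, hI⟩ := h
  exact ⟨S, i1, i2, i3, i4, i5, u, isCurve hu, fun α => isIntegral (hI α)⟩

theorem isSuperposition {U : Opens GHP.E} {c : GHP.Current GHP.M 2}
    (h : GHP.IsSuperposition U c) : GH.IsSuperposition U (c : GH.Current ⊤ 2) := by
  obtain ⟨m, ν, hν⟩ := h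
  let F : GHP.PCurve U → GH.PCurve U := fun c' => ⟨c'.1, pcurve c'.2⟩
  have hinj : Function.Injective F := fun a b hab => Subtype.ext (congrArg (fun x => x.1) hab)
  letI m' : MeasurableSpace (GH.PCurve U) := m.map F
  have hE : MeasurableEmbedding F := by
    refine ⟨hinj, fun s hs => hs, fun s hs => ?_⟩
    show MeasurableSet (F ⁻¹' (F '' s))
    rw [hinj.preimage_image]
    exact hs
  refine ⟨m', Measure.map F ν, ?_⟩
  intro α
  obtain ⟨k1, k2⟩ := hν α (TestFunction.monoCLM ℝ (α : GH.Forms U 2) : GH.Forms ⊤ 2) (by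
    intro x
    have : (TestFunction.monoCLM ℝ (α : GH.Forms U 2) : GH.Forms ⊤ 2) x = (α : GH.Forms U 2) x := by
      rw [TestFunction.monoCLM_apply]
      simp
    exact this)
  refine ⟨(hE.integrable_map_iff).2 k1, ?_⟩
  rw [hE.integral_map]
  exact k2

theorem main : ∃ c : GHP.Current GHP.M 2, c ∈ GHP.CCurrent ∧ GHP.IsCycle c ∧
    ∃ x : GHP.E, ∀ U : Opens GHP.E, x ∈ U → ¬ GHP.IsSuperposition U c := by
  obtain ⟨c, h1, h2, x, h3⟩ :=
    GH.fin GH.t_TA GH.t_CONES GH.t_CYC (GH.t_GEO GH.t_OM) (GH.t_POS GH.t_OM)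
  refine ⟨c, ?_, ?_, x, fun U hU hs => h3 U hU (isSuperposition hs)⟩
  · rw [← ccurrent_eq] at h1; exact h1
  · intro β γ hγ
    have h := h2 β
    have e : (γ : GH.Forms ⊤ 2) = GH.dForm ⊤ 1 β := by
      apply TestFunction.ext
      intro a
      exact (hγ a).trans (GH.dForm_apply ⊤ 1 β a).symm
    have e2 : c (γ : GH.Forms ⊤ 2) = 0 := by rw [e]; exact h
    exact e2

end Pool.Agent.Helper473.GHB
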