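import Mathlib

/-!
# Cone currents on `ℂ²` and superpositions of pseudoholomorphic curves

The manifold is `M = ℂ² = ℝ⁴`, the foliation has the single leaf `M` (leaf dimension `2n = 4`), and
the almost complex structure is `J = i`.  This file defines test forms, currents, Dirac currents,
the structure cone of `J`, `C`-currents, cycles, the set of pseudoholomorphic curves in an open set
`U` (as currents on `U`), and what it is for a current to be, on `U`, a non-negative superposition
of pseudoholomorphic curves.
-/

set_option autoImplicit false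

open scoped Manifold ContDiff Topology Distributions
open MeasureTheory TopologicalSpace Set

namespace Pool.Agent.Helper473.GH

noncomputable section

/-- The manifold `M = ℂ² = ℝ⁴`; it is also each of its tangent spaces. -/
abbrev E : Type := ℂ × ℂ

/-- Alternating `p`-forms on a tangent space. -/
abbrev Alt (p : ℕ) : Type := E [⋀^Fin p]→L[ℝ] ℝ

/-- `Ω^p_c(U)`: smooth `p`-forms with compact support in the open set `U`, with the `C^∞` topology
(the usual inductive limit topology of test functions). -/
abbrev Forms (U : Opens E) (p : ℕ) : Type := 𝓓(U, Alt p)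

/-- `p`-currents on `U`: continuous linear functionals on `Ω^p_c(U)`, with the strong topology
(uniform convergence on bounded sets of test forms). -/
abbrev Current (U : Opens E) (p : ℕ) : Type := 𝓓(U, Alt p) →L[ℝ] ℝ

/-- The exterior derivative of test forms, `Ω^p_c(U) → Ω^{p+1}_c(U)` (see `dForm_apply`). -/
def dForm (U : Opens E) (p : ℕ) : Forms U p →L[ℝ] Forms U (p + 1) :=
  (TestFunction.postcompCLM
    (ContinuousAlternatingMap.alternatizeUncurryFinCLM ℝ E ℝ)).comp
    (TestFunction.fderivCLM ℝ ⊤ ⊤)

/-- The almost complex structure `J = i` of `ℂ²`. -/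
def J (v : E) : E := Complex.I • v

/-- The `2`-vector `v ∧ w`.  As the tangent space is finite dimensional, `Λ²T` is identified with
the dual of the space of alternating `2`-forms: `v ∧ w` is `β ↦ β(v, w)`. -/
def wedge (v w : E) : Alt 2 →L[ℝ] ℝ :=
  (ContinuousMultilinearMap.apply ℝ (fun _ : Fin 2 => E) ℝ ![v, w]).comp
    (ContinuousAlternatingMap.toContinuousMultilinearMapCLM ℝ)

/-- The closed convex cone generated by a subset of a topological vector space. -/
def closedCone {V : Type*} [AddCommGroup V] [Module ℝ V] [TopologicalSpace V] (s : Set V) :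
    Set V := closure (PointedCone.hull ℝ s : Set V)

/-- The structure cone of `J` at any point `y`: the closed convex cone in `Λ²T_yM` generated by
the `2`-vectors `v ∧ J v`. -/
def coneJ : Set (Alt 2 →L[ℝ] ℝ) := closedCone {w | ∃ v : E, w = wedge v (J v)}

/-- The Dirac current `α ↦ α_y(w)`, for a `2`-vector `w` at `y`. -/
def dirac (y : E) (w : Alt 2 →L[ℝ] ℝ) : Current ⊤ 2 where
  toFun α := w (α y)
  map_add' α β := by simp
  map_smul' r α := by simp
  cont := w.continuous.comp (continuous_eval_const y)

/-- `C`-currents on `M`: the closed convex cone generated by the Dirac currents of elements of the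
structure cone of `J`. -/
def CCurrent : Set (Current ⊤ 2) := closedCone {T | ∃ y, ∃ w ∈ coneJ, T = dirac y w}

/-- Cycles: currents with `∂c(β) = c(dβ) = 0`. -/
def IsCycle (c : Current ⊤ 2) : Prop := ∀ β : Forms ⊤ 1, c (dForm ⊤ 1 β) = 0

section Curves

variable {S : Type} [TopologicalSpace S] [ChartedSpace ℂ S]

/-- The density of the pulled back `2`-form `u^*α` with respect to Lebesgue measure in the chart
`e` (with coordinate `z = x + i y`): `(u^*α)(∂_x, ∂_y)`. -/
def dens (e : OpenPartialHomeomorph S ℂ) (u : S → E) (α : E → Alt 2) (z : ℂ) : ℝ :=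
  α (u (e.symm z)) ![fderiv ℝ (u ∘ e.symm) z 1, fderiv ℝ (u ∘ e.symm) z Complex.I]

/-- `I` is the integral `∫_S u^*α`: `S` is cut into countably many disjoint Borel pieces `A k`, each
in the domain of a chart `e k` of the Riemann surface `S`, the form `u^*α` is integrable on each
piece, and the sum of its integrals over the pieces is `I`. -/
def IsIntegral (u : S → E) (α : E → Alt 2) (I : ℝ) : Prop :=
  ∃ (e : ℕ → OpenPartialHomeomorph S ℂ) (A : ℕ → Set S),
    (∀ k, e k ∈ atlas ℂ S) ∧ (∀ k, A k ⊆ (e k).source) ∧
    Pairwise (Function.onFun Disjoint A) ∧ (⋃ k, A k) = univ ∧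
    (∀ k, MeasurableSet (e k '' A k)) ∧
    (∀ k, IntegrableOn (dens (e k) u α) (e k '' A k)) ∧
    HasSum (fun k => ∫ z in e k '' A k, dens (e k) u α z) I

/-- `u : S → M` is a parametrised pseudoholomorphic curve in `U`, for a connected Riemann surface
`S`: it has values in `U`, is proper as a map to `U`, is somewhere injective (some point `s` with
`du(s) ≠ 0` is the only preimage of `u(s)`), and its differential is complex linear. -/
structure IsCurve [T2Space S] [ConnectedSpace S] [IsManifold 𝓘(ℂ) 1 S] (U : Opens E)
    (u : S → E) : Prop where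
  mem : ∀ s, u s ∈ U
  proper : IsProperMap (fun s => (⟨u s, mem s⟩ : U))
  somewhere_injective : ∃ s, mfderiv 𝓘(ℂ) 𝓘(ℂ, E) u s ≠ 0 ∧ ∀ s', u s' = u s → s' = s
  holo : MDifferentiable 𝓘(ℂ) 𝓘(ℂ, E) u

end Curves

/-- The set `𝒫_U` of pseudoholomorphic curves in `U`, as currents `α ↦ ∫_S u^*α` on `U`. -/
def PCurve (U : Opens E) : Set (Current U 2) :=
  {c | ∃ (S : Type) (_ : TopologicalSpace S) (_ : ChartedSpace ℂ S) (_ : T2Space S)
      (_ : ConnectedSpace S) (_ : IsManifold 𝓘(ℂ) 1 S) (u : S → E),
      IsCurve U u ∧ ∀ α : Forms U 2, IsIntegral u α (c α)}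

/-- On `U`, the current `c` is a non-negative superposition of pseudoholomorphic curves: for some
σ-algebra on `𝒫_U` and some (non-negative) measure `ν` on it, `c(α) = ∫ c'(α) dν(c')` for all
`α ∈ Ω²_c(U)`. -/
def IsSuperposition (U : Opens E) (c : Current ⊤ 2) : Prop :=
  ∃ (_ : MeasurableSpace (PCurve U)) (ν : Measure (PCurve U)), ∀ α : Forms U 2,
    Integrable (fun c' : PCurve U => (c' : Current U 2) α) ν ∧
    c (TestFunction.monoCLM ℝ α) = ∫ c', (c' : Current U 2) α ∂ν

theorem dForm_apply (U : Opens E) (p : ℕ) (β : Forms U p) (x : E) :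
    dForm U p β x = extDeriv β x := by
  simp [dForm, extDeriv]

end

end Pool.Agent.Helper473.GH
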