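import Pool.Agent.Helper473.GH.Stmts

set_option autoImplicit false

open scoped Manifold ContDiff Topology Distributions
open MeasureTheory TopologicalSpace Set

namespace Pool.Agent.Helper473.GH

noncomputable section

lemma om_val (v w : E) : om ![v, w] = v.1.re * w.1.im - v.1.im * w.1.re
    + (v.2.re * w.2.im - v.2.im * w.2.re) := rfl

lemma om_apply (v : E) : om ![v, J v] = ‖v.1‖ ^ 2 + ‖v.2‖ ^ 2 := by
  rw [om_val]
  simp [J, Complex.sq_norm, Complex.normSq_apply]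

lemma closedCone_add {V : Type*} [AddCommGroup V] [Module ℝ V] [TopologicalSpace V]
    [ContinuousAdd V] {s : Set V} {x y : V} (hx : x ∈ closedCone s) (hy : y ∈ closedCone s) :
    x + y ∈ closedCone s := by
  unfold closedCone at *
  exact map_mem_closure₂ continuous_add hx hy (fun a ha b hb => add_mem ha hb)

/-- The form `φ ω`. -/
def fom {U : Opens E} (φ : 𝓓(U, ℝ)) : Forms U 2 :=
  TestFunction.postcompCLM (ContinuousLinearMap.toSpanSingleton ℝ om) φ

lemma fom_apply {U : Opens E} (φ : 𝓓(U, ℝ)) (x : E) : fom φ x = φ x • om := by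
  simp [fom]

lemma fom_coe {U : Opens E} (φ : 𝓓(U, ℝ)) : (fom φ : E → Alt 2) = fun x => φ x • om := by
  ext1 x
  exact fom_apply φ x

lemma mono_fom {U : Opens E} (φ : 𝓓(U, ℝ)) :
    ((TestFunction.monoCLM ℝ (fom φ) : Forms ⊤ 2) : E → Alt 2) = fun x => φ x • om := by
  ext1 x
  rw [← fom_apply, TestFunction.monoCLM_apply]
  simp

/-- Bump functions. -/
lemma exists_bump (U : Opens E) (p : E) (r : ℝ) (hr : 0 < r)
    (h : Metric.closedBall p r ⊆ (U : Set E)) :
    ∃ φ : 𝓓(U, ℝ), (∀ x, 0 ≤ φ x) ∧ 0 < φ p ∧ ∀ x, x ∉ Metric.ball p r → φ x = 0 := by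
  let f : ContDiffBump p := ⟨r / 2, r, by linarith, by linarith⟩
  refine ⟨⟨f, f.contDiff, f.hasCompactSupport, ?_⟩, ?_, ?_, ?_⟩
  · rw [f.tsupport_eq]; exact h
  · intro x; exact f.nonneg
  · exact f.pos_of_mem_ball (Metric.mem_ball_self hr)
  · intro x hx
    have : x ∉ Function.support f := by rw [f.support_eq]; exact hx
    simpa using this

lemma vec_om (a : ℝ × ℝ) : om ![vec a, J (vec a)] = a.1 ^ 2 + a.2 ^ 2 := by
  rw [om_apply]
  simp [vec]

lemma TV_fom (a : ℝ × ℝ) (φ : E → ℝ) :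
    TV a (fun x => φ x • om) =
      ∫ q in Ioi (0 : ℝ) ×ˢ (univ : Set (ℝ × ℝ)), φ (P a q) * (a.1 ^ 2 + a.2 ^ 2) := by
  unfold TV
  congr 1
  ext q
  rw [ContinuousAlternatingMap.smul_apply, vec_om, smul_eq_mul]

lemma P_mem_FS {q : ℝ × ℝ × ℝ} (hq : q ∈ Ioi (0 : ℝ) ×ˢ (univ : Set (ℝ × ℝ))) :
    P (1, 1) q ∈ FS ∧ P (0, -1) q ∈ FS ∧ P (-1, 0) q ∈ FS := by
  have h : 0 < q.1 := hq.1
  refine ⟨Or.inl ⟨by simp [P], by simp [P]; linarith⟩, Or.inr (Or.inr ⟨by simp [P], by simp [P]; linarith⟩),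
    Or.inr (Or.inl ⟨by simp [P], by simp [P]; linarith⟩)⟩

lemma TV_zero (a : ℝ × ℝ) (φ : E → ℝ)
    (h : ∀ q ∈ Ioi (0 : ℝ) ×ˢ (univ : Set (ℝ × ℝ)), φ (P a q) = 0) :
    TV a (fun x => φ x • om) = 0 := by
  rw [TV_fom]
  rw [setIntegral_congr_fun (g := fun _ => 0) (measurableSet_Ioi.prod MeasurableSet.univ)]
  · simp
  · intro q hq
    simp [h q hq]

lemma TV_nonneg (a : ℝ × ℝ) (φ : E → ℝ) (h : ∀ x, 0 ≤ φ x) :
    0 ≤ TV a (fun x => φ x • om) := by
  rw [TV_fom]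
  exact integral_nonneg fun q => mul_nonneg (h _) (by positivity)

lemma P_cont (a : ℝ × ℝ) : Continuous (P a) := by
  have : P a = fun q => (((a.1 * q.1 : ℝ) : ℂ) + (q.2.1 : ℂ) * Complex.I,
      ((a.2 * q.1 : ℝ) : ℂ) + (q.2.2 : ℂ) * Complex.I) := by
    ext q <;> simp [P, Complex.ext_iff]
  rw [this]
  fun_prop

lemma TV_pos (φ : E → ℝ) (hc : Continuous φ) (hs : HasCompactSupport φ) (h : ∀ x, 0 ≤ φ x)
    (h0 : 0 < φ 0) : 0 < TV (1, 1) (fun x => φ x • om) := by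
  rw [TV_fom]
  have hP : Continuous fun q : ℝ × ℝ × ℝ => φ (P (1, 1) q) := hc.comp (P_cont _)
  have hsupp : HasCompactSupport fun q : ℝ × ℝ × ℝ => φ (P (1, 1) q) := by
    apply hs.comp_isClosedEmbedding (g := P (1, 1))
    refine Topology.IsClosedEmbedding.of_continuous_injective_isClosedMap (P_cont _) ?_ ?_
    · intro q q' hq
      simp only [P, Prod.mk.injEq, Complex.mk.injEq] at hq
      ext
      · linarith [hq.1.1]
      · exact hq.1.2
      · exact hq.2.2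
    · intro K hK
      have : P (1, 1) '' K = (fun p : E => (p.1.re, p.1.im, p.2.im)) ⁻¹' K ∩
          {p : E | p.1.re = p.2.re} := by
        ext p
        constructor
        · rintro ⟨q, hq, rfl⟩
          simp [P, hq]
        · rintro ⟨h1, h2⟩
          refine ⟨_, h1, ?_⟩
          have h2' : p.1.re = p.2.re := h2
          refine Prod.ext (Complex.ext ?_ ?_) (Complex.ext ?_ ?_) <;> simp [P, h2']
      rw [this]
      refine (hK.preimage (by fun_prop)).inter (isClosed_eq (by fun_prop) (by fun_prop))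
  have hint : Integrable fun q : ℝ × ℝ × ℝ => φ (P (1, 1) q) * ((1 : ℝ) ^ 2 + 1 ^ 2) :=
    (hP.integrable_of_hasCompactSupport hsupp).mul_const _
  rw [setIntegral_pos_iff_support_of_nonneg_ae]
  · have hopen : IsOpen ((Function.support fun q : ℝ × ℝ × ℝ =>
        φ (P (1, 1) q) * ((1 : ℝ) ^ 2 + 1 ^ 2)) ∩ Ioi (0 : ℝ) ×ˢ (univ : Set (ℝ × ℝ))) :=
      ((hP.mul continuous_const).isOpen_support).inter (isOpen_Ioi.prod isOpen_univ)
    apply hopen.measure_pos volume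
    have hev : ∀ᶠ x in 𝓝[>] (0 : ℝ), 0 < φ (P (1, 1) (x, 0, 0)) := by
      have hc' : Continuous fun x : ℝ => φ (P (1, 1) (x, 0, 0)) :=
        hP.comp (by fun_prop)
      have h00 : 0 < φ (P (1, 1) ((0 : ℝ), 0, 0)) := by
        have : P (1, 1) ((0 : ℝ), 0, 0) = 0 := by ext <;> simp [P, Complex.ext_iff]
        rw [this]; exact h0
      exact (hc'.continuousAt.eventually (lt_mem_nhds h00)).filter_mono nhdsWithin_le_nhds
    obtain ⟨x, hx1, hx2⟩ := (hev.and self_mem_nhdsWithin).exists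
    refine ⟨(x, 0, 0), ?_, hx2, mem_univ _⟩
    have : φ (P (1, 1) (x, 0, 0)) * ((1 : ℝ) ^ 2 + 1 ^ 2) ≠ 0 := by positivity
    exact this
  · exact Filter.Eventually.of_forall fun q => mul_nonneg (h _) (by positivity)
  · exact hint.integrableOn

end

end Pool.Agent.Helper473.GH
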