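import Mathlib

/-!
# Cone currents on `ℂ²` and superpositions of pseudoholomorphic curves

The manifold is `M = ℂ² = ℝ⁴`, the foliation has the single leaf `M` (leaf dimension `2n = 4`), and
the almost complex structure is `J = i`.  This file defines test forms, currents, the structure cone
of `J`, `C`-currents, cycles, the set of pseudoholomorphic curves in an open set `U` (as currents on
`U`), and what it is for a current to be, on `U`, a non-negative superposition of pseudoholomorphic
curves.
-/

set_option autoImplicit false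

open scoped Manifold ContDiff Topology Distributions
open MeasureTheory TopologicalSpace Set

namespace Pool.Agent.Helper473.GHP

noncomputable section

/-- The manifold `M = ℂ² = ℝ⁴`; it is also each of its tangent spaces. -/
abbrev E : Type := ℂ × ℂ

/-- The whole manifold, as an open set. -/
def M : Opens E := ⊤

/-- Alternating real `p`-forms on a tangent space, with the operator norm. -/
def Alt (p : ℕ) : Type := E [⋀^Fin p]→L[ℝ] ℝ

instance (p : ℕ) : NormedAddCommGroup (Alt p) :=
  (inferInstance : NormedAddCommGroup (E [⋀^Fin p]→L[ℝ] ℝ))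

instance (p : ℕ) : NormedSpace ℝ (Alt p) :=
  (inferInstance : NormedSpace ℝ (E [⋀^Fin p]→L[ℝ] ℝ))

/-- The value `β(v₁, …, v_p)`. -/
def Alt.eval {p : ℕ} (β : Alt p) (v : Fin p → E) : ℝ := (show E [⋀^Fin p]→L[ℝ] ℝ from β) v

/-- `Ω^p_c(U)`: smooth `p`-forms with compact support in the open set `U`, with the `C^∞` topology
(the usual inductive limit topology of test functions). -/
abbrev Forms (U : Opens E) (p : ℕ) : Type := 𝓓(U, Alt p)

/-- The exterior derivative. -/
def d {p : ℕ} (β : E → Alt p) (x : E) : Alt (p + 1) :=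
  extDeriv (show E → E [⋀^Fin p]→L[ℝ] ℝ from β) x

/-- `p`-currents on `U`: continuous linear functionals on `Ω^p_c(U)`, with the strong topology
(uniform convergence on bounded sets of test forms). -/
def Current (U : Opens E) (p : ℕ) : Type := Forms U p →L[ℝ] ℝ

instance (U : Opens E) (p : ℕ) : AddCommGroup (Current U p) :=
  (inferInstance : AddCommGroup (Forms U p →L[ℝ] ℝ))

instance (U : Opens E) (p : ℕ) : Module ℝ (Current U p) :=
  (inferInstance : Module ℝ (Forms U p →L[ℝ] ℝ))

instance (U : Opens E) (p : ℕ) : TopologicalSpace (Current U p) :=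
  (inferInstance : TopologicalSpace (Forms U p →L[ℝ] ℝ))

/-- The value `c(α)` of a current on a test form. -/
def Current.eval {U : Opens E} {p : ℕ} (c : Current U p) (α : Forms U p) : ℝ :=
  (show Forms U p →L[ℝ] ℝ from c) α

/-- The almost complex structure `J = i` of `ℂ²`. -/
def J (v : E) : E := Complex.I • v

/-- `Λ²T`: as the tangent space is finite dimensional, it is identified with the dual of the space
of alternating `2`-forms. -/
def Bivector : Type := Alt 2 →L[ℝ] ℝ

instance : AddCommGroup Bivector := (inferInstance : AddCommGroup (Alt 2 →L[ℝ] ℝ))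

instance : Module ℝ Bivector := (inferInstance : Module ℝ (Alt 2 →L[ℝ] ℝ))

instance : TopologicalSpace Bivector := (inferInstance : TopologicalSpace (Alt 2 →L[ℝ] ℝ))

/-- The pairing of a `2`-form and a `2`-vector. -/
def Bivector.pair (w : Bivector) (β : Alt 2) : ℝ := (show Alt 2 →L[ℝ] ℝ from w) β

/-- The closed convex cone generated by a subset of a topological vector space. -/
def closedCone {V : Type} [AddCommGroup V] [Module ℝ V] [TopologicalSpace V] (s : Set V) :
    Set V := closure (PointedCone.hull ℝ s : Set V)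

/-- The structure cone of `J` at any point `y`: the closed convex cone in `Λ²T_yM` generated by
the `2`-vectors `v ∧ J v`, where `v ∧ w` is `β ↦ β(v, w)`. -/
def coneJ : Set Bivector := closedCone {w | ∃ v : E, ∀ β : Alt 2, w.pair β = β.eval ![v, J v]}

/-- `C`-currents on `M`: the closed convex cone generated by the Dirac currents `α ↦ α_y(w)` of
elements `w` of the structure cone of `J` at `y`. -/
def CCurrent : Set (Current M 2) :=
  closedCone {T | ∃ y, ∃ w ∈ coneJ, ∀ α : Forms M 2, T.eval α = w.pair (α y)}

/-- Cycles: currents with `∂c(β) = c(dβ) = 0` for every `β ∈ Ω¹_c(M)` (here `γ = dβ`). -/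
def IsCycle (c : Current M 2) : Prop :=
  ∀ (β : Forms M 1) (γ : Forms M 2), (∀ x, γ x = d β x) → c.eval γ = 0

section Curves

variable {S : Type} [TopologicalSpace S] [ChartedSpace ℂ S]

/-- The density of the pulled back `2`-form `u^*α` with respect to Lebesgue measure in the chart
`e` (with coordinate `z = x + i y`): `(u^*α)(∂_x, ∂_y)`. -/
def dens (e : OpenPartialHomeomorph S ℂ) (u : S → E) (α : E → Alt 2) (z : ℂ) : ℝ :=
  (α (u (e.symm z))).eval
    ![fderiv ℝ (u ∘ e.symm) z 1, fderiv ℝ (u ∘ e.symm) z Complex.I]

/-- `I` is the integral `∫_S u^*α`: `S` is cut into countably many disjoint Borel pieces `A k`, each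
in the domain of a chart `e k` of the Riemann surface `S`, the form `u^*α` is integrable on each
piece, and the sum of its integrals over the pieces is `I`. -/
def IsIntegral (u : S → E) (α : E → Alt 2) (I : ℝ) : Prop :=
  ∃ (e : ℕ → OpenPartialHomeomorph S ℂ) (A : ℕ → Set S),
    (∀ k, e k ∈ atlas ℂ S) ∧ (∀ k, A k ⊆ (e k).source) ∧
    (∀ k l, k ≠ l → Disjoint (A k) (A l)) ∧ (⋃ k, A k) = univ ∧
    (∀ k, MeasurableSet (e k '' A k)) ∧
    (∀ k, IntegrableOn (dens (e k) u α) (e k '' A k)) ∧
    HasSum (fun k => ∫ z in e k '' A k, dens (e k) u α z) I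

/-- `u : S → M` is a parametrised pseudoholomorphic curve in `U`, for a connected Riemann surface
`S`: it has values in `U`, is proper as a map to `U`, is somewhere injective (some point `s` with
`du(s) ≠ 0` is the only preimage of `u(s)`), and is holomorphic (`du ∘ j = J ∘ du`). -/
structure IsCurve [T2Space S] [ConnectedSpace S] [IsManifold 𝓘(ℂ) 1 S] (U : Opens E)
    (u : S → E) : Prop where
  mem : ∀ s, u s ∈ U
  proper : IsProperMap (fun s => (⟨u s, mem s⟩ : U))
  somewhere_injective : ∃ s, fderiv ℂ (u ∘ (chartAt ℂ s).symm) (chartAt ℂ s s) ≠ 0 ∧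
    ∀ s', u s' = u s → s' = s
  holo : ∀ e ∈ atlas ℂ S, DifferentiableOn ℂ (u ∘ e.symm) e.target

end Curves

/-- The set `𝒫_U` of pseudoholomorphic curves in `U`, as currents `α ↦ ∫_S u^*α` on `U`. -/
def PCurve (U : Opens E) : Set (Current U 2) :=
  {c | ∃ (S : Type) (_ : TopologicalSpace S) (_ : ChartedSpace ℂ S) (_ : T2Space S)
      (_ : ConnectedSpace S) (_ : IsManifold 𝓘(ℂ) 1 S) (u : S → E),
      IsCurve U u ∧ ∀ α : Forms U 2, IsIntegral u α (c.eval α)}

/-- On `U`, the current `c` is a non-negative superposition of pseudoholomorphic curves: for some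
σ-algebra on `𝒫_U` and some (non-negative) measure `ν` on it, `c(α) = ∫ c'(α) dν(c')` for all
`α ∈ Ω²_c(U)` (`β` is `α` as an element of `Ω²_c(M)`). -/
def IsSuperposition (U : Opens E) (c : Current M 2) : Prop :=
  ∃ (_ : MeasurableSpace (PCurve U)) (ν : Measure (PCurve U)),
    ∀ (α : Forms U 2) (β : Forms M 2), (∀ x, β x = α x) →
      Integrable (fun c' : PCurve U => (c' : Current U 2).eval α) ν ∧
      c.eval β = ∫ c', (c' : Current U 2).eval α ∂ν

end

end Pool.Agent.Helper473.GHP
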