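import Pool.Agent.Helper473.GH.Defs

/-!
# Statements of the steps
-/

set_option autoImplicit false

open scoped Manifold ContDiff Topology Distributions
open MeasureTheory TopologicalSpace Set

namespace Pool.Agent.Helper473.GH

noncomputable section

/-- Parametrisation of the three dimensional face `{x a + i(s, t) : x ≥ 0}`. -/
def P (a : ℝ × ℝ) (q : ℝ × ℝ × ℝ) : E := (⟨a.1 * q.1, q.2.1⟩, ⟨a.2 * q.1, q.2.2⟩)

/-- The real vector `a` as a vector of `ℂ²`. -/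
def vec (a : ℝ × ℝ) : E := ((a.1 : ℂ), (a.2 : ℂ))

/-- The standard Kähler form: `ω(v, w) = Im (conj v₁ w₁) + Im (conj v₂ w₂)`. -/
def om : Alt 2 where
  toFun m := (m 0).1.re * (m 1).1.im - (m 0).1.im * (m 1).1.re
    + ((m 0).2.re * (m 1).2.im - (m 0).2.im * (m 1).2.re)
  map_update_add' := by
    intro inst m i x y
    fin_cases i <;> simp [Function.update] <;> ring
  map_update_smul' := by
    intro inst m i c x
    fin_cases i <;> simp [Function.update] <;> ring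
  map_eq_zero_of_eq' := by
    intro m i j h hij
    fin_cases i <;> fin_cases j <;> simp_all <;> ring
  cont := by fun_prop

/-- The union of the three faces. -/
def FS : Set E := {p | (p.1.re = p.2.re ∧ 0 ≤ p.1.re) ∨ (p.2.re = 0 ∧ p.1.re ≤ 0) ∨
  (p.1.re = 0 ∧ p.2.re ≤ 0)}

/-- The value on `α` of the current of the face `a`. -/
def TV (a : ℝ × ℝ) (α : E → Alt 2) : ℝ :=
  ∫ q in Ioi (0 : ℝ) ×ˢ (univ : Set (ℝ × ℝ)), α (P a q) ![vec a, J (vec a)]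

def S_TA : Prop := ∀ a : ℝ × ℝ, a ≠ 0 → ∃ T : Current ⊤ 2, ∀ α : Forms ⊤ 2, T α = TV a α

def S_CONE : Prop := ∀ a : ℝ × ℝ, a ≠ 0 → ∀ T : Current ⊤ 2,
  (∀ α : Forms ⊤ 2, T α = TV a α) → T ∈ CCurrent

def S_CYC : Prop := ∀ a : ℝ × ℝ, a ≠ 0 → ∀ β : Forms ⊤ 1,
  TV a (dForm ⊤ 1 β) =
    - ∫ p : ℝ × ℝ, β ((⟨0, p.1⟩, ⟨0, p.2⟩) : E) ![J (vec a)]

/-- Open mapping theorem on a connected Riemann surface. -/
def S_OM : Prop := ∀ (S : Type) [TopologicalSpace S] [ChartedSpace ℂ S] [T2Space S]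
  [ConnectedSpace S] [IsManifold 𝓘(ℂ) 1 S] (f : S → ℂ), MDifferentiable 𝓘(ℂ) 𝓘(ℂ) f →
  (∀ s, 𝓝 (f s) ≤ Filter.map f (𝓝 s)) ∨ ∃ c, ∀ s, f s = c

/-- A curve with image in the three faces does not meet a ball around `0` which lies in `U`. -/
def S_GEO : Prop := ∀ (S : Type) [TopologicalSpace S] [ChartedSpace ℂ S] [T2Space S]
  [ConnectedSpace S] [IsManifold 𝓘(ℂ) 1 S] (U : Opens E) (u : S → E), IsCurve U u →
  (∀ s, u s ∈ FS) → ∀ R : ℝ, Metric.ball (0 : E) R ⊆ (U : Set E) →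
  ∀ s, u s ∉ Metric.ball (0 : E) R

/-- Positivity of curves. -/
def S_POS : Prop := ∀ (S : Type) [TopologicalSpace S] [ChartedSpace ℂ S] [T2Space S]
  [ConnectedSpace S] [IsManifold 𝓘(ℂ) 1 S] (U : Opens E) (u : S → E), IsCurve U u →
  ∀ φ : E → ℝ, Continuous φ → (∀ x, 0 ≤ φ x) → ∀ I : ℝ, IsIntegral u (fun x => φ x • om) I →
  0 ≤ I ∧ (I = 0 → ∀ s, φ (u s) = 0)

end

end Pool.Agent.Helper473.GH
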